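import Mathlib

set_option autoImplicit false

/-!
# Generators of the totally real field
-/

open Module Polynomial IntermediateField

namespace Pool.Agent.W5h86.RK

variable {V : Type} [AddCommGroup V] [Module ℚ V] [FiniteDimensional ℚ V]

/-- the minimal polynomial of an endomorphism whose nonzero polynomials are injective -/
lemma irr_minpoly [Nontrivial V] {B : Module.End ℚ V}
    (hB : ∀ Q ∈ Algebra.adjoin ℚ {B}, Q ≠ 0 → Function.Injective Q) :
    Irreducible (minpoly ℚ B) := by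
  have hint : IsIntegral ℚ B := Algebra.IsIntegral.isIntegral B
  have hm := minpoly.monic hint
  rw [hm.irreducible_iff_natDegree']
  refine ⟨minpoly.ne_one ℚ B, fun f q hf hq hfq hd => ?_⟩
  rw [Finset.mem_Ioc] at hd
  obtain ⟨h1, h2⟩ := hd
  have hdeg : (minpoly ℚ B).natDegree = f.natDegree + q.natDegree := by
    rw [← hfq, hf.natDegree_mul hq]
  have hf0 : aeval B f ≠ 0 := by
    intro h0
    have h3 := natDegree_le_natDegree (minpoly.min ℚ B hf h0)
    omega
  have hq0 : aeval B q ≠ 0 := by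
    intro h0
    have h3 := natDegree_le_natDegree (minpoly.min ℚ B hq h0)
    omega
  have i1 := hB _ (aeval_mem_adjoin_singleton ℚ B) hf0
  have i2 := hB _ (aeval_mem_adjoin_singleton ℚ B) hq0
  have h3 : aeval B f * aeval B q = 0 := by rw [← map_mul, hfq, minpoly.aeval]
  obtain ⟨v, hv⟩ := exists_ne (0 : V)
  apply hv
  apply i2
  apply i1
  rw [map_zero, map_zero, ← Module.End.mul_apply, h3, LinearMap.zero_apply]

/-- a polynomial which vanishes at a root of the irreducible minimal polynomial -/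
lemma aeval_zero_of_root {B : Module.End ℚ V} (hirr : Irreducible (minpoly ℚ B)) {ρ : ℝ}
    (hρ : aeval ρ (minpoly ℚ B) = 0) {f : ℚ[X]} (hf : aeval ρ f = 0) : aeval B f = 0 := by
  have hint : IsIntegral ℚ B := Algebra.IsIntegral.isIntegral B
  have h1 : minpoly ℚ B = minpoly ℚ ρ :=
    minpoly.eq_of_irreducible_of_monic hirr hρ (minpoly.monic hint)
  have h2 : minpoly ℚ ρ ∣ f := minpoly.dvd ℚ ρ hf
  rw [← h1] at h2
  obtain ⟨q, hq⟩ := h2
  rw [hq, map_mul, minpoly.aeval, zero_mul]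

/-- **Elements with different values at all places are generators.** -/
lemma gen_of_inj {B : Module.End ℚ V} (hirr : Irreducible (minpoly ℚ B)) {f : ℚ[X]}
    (s : Finset ℝ) (hs : ∀ ρ ∈ s, aeval ρ (minpoly ℚ B) = 0)
    (hcard : (minpoly ℚ B).natDegree ≤ s.card)
    (hinj : ∀ ρ ∈ s, ∀ ρ' ∈ s, aeval ρ f = aeval ρ' f → ρ = ρ') (hne : s.Nonempty) :
    B ∈ Algebra.adjoin ℚ {aeval B f} := by
  classical
  obtain ⟨ρ, hρ⟩ := hne
  have hint : IsIntegral ℚ B := Algebra.IsIntegral.isIntegral B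
  have hm : minpoly ℚ B = minpoly ℚ ρ :=
    minpoly.eq_of_irreducible_of_monic hirr (hs ρ hρ) (minpoly.monic hint)
  have hρi : IsIntegral ℚ ρ := ⟨minpoly ℚ B, minpoly.monic hint, hs ρ hρ⟩
  have hfi : IsIntegral ℚ (aeval ρ f) := by
    have h1 : aeval ρ f ∈ Algebra.adjoin ℚ {ρ} := aeval_mem_adjoin_singleton ℚ ρ
    exact IsIntegral.of_mem_of_fg _ hρi.fg_adjoin_singleton _ h1
  set ν := minpoly ℚ (aeval ρ f) with hν
  have hν0 : ν ≠ 0 := minpoly.ne_zero hfi
  have hroots : ∀ ρ' ∈ s, aeval (aeval ρ' f) ν = 0 := by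
    intro ρ' hρ'
    have h1 : minpoly ℚ ρ ∣ ν.comp f := by
      apply minpoly.dvd
      rw [aeval_comp, hν, minpoly.aeval]
    rw [← hm] at h1
    obtain ⟨q, hq⟩ := h1
    rw [← aeval_comp, hq, map_mul, hs ρ' hρ', zero_mul]
  have hdeg : (minpoly ℚ B).natDegree ≤ ν.natDegree := by
    have h1 : (s.image fun ρ' => aeval ρ' f).card = s.card :=
      Finset.card_image_of_injOn fun a ha b hb hab => hinj a ha b hb hab
    have h2 : (s.image fun ρ' => aeval ρ' f) ⊆ (ν.map (algebraMap ℚ ℝ)).roots.toFinset := by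
      intro x hx
      obtain ⟨ρ', hρ', rfl⟩ := Finset.mem_image.1 hx
      rw [Multiset.mem_toFinset, mem_roots_map hν0, ← aeval_def]
      exact hroots ρ' hρ'
    calc (minpoly ℚ B).natDegree ≤ s.card := hcard
      _ = _ := h1.symm
      _ ≤ _ := Finset.card_le_card h2
      _ ≤ _ := Multiset.toFinset_card_le _
      _ ≤ _ := card_roots' _
      _ = ν.natDegree := natDegree_map _
  have hle : ℚ⟮aeval ρ f⟯ ≤ ℚ⟮ρ⟯ := by
    rw [adjoin_simple_le_iff]
    have h1 : aeval ρ f ∈ Algebra.adjoin ℚ {ρ} := aeval_mem_adjoin_singleton ℚ ρ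
    exact algebra_adjoin_le_adjoin ℚ _ h1
  have hfd : FiniteDimensional ℚ ℚ⟮ρ⟯ := adjoin.finiteDimensional hρi
  have heq : ℚ⟮aeval ρ f⟯ = ℚ⟮ρ⟯ := by
    apply eq_of_le_of_finrank_le hle
    rw [adjoin.finrank hρi, adjoin.finrank hfi, ← hm]
    exact hdeg
  have h1 : ρ ∈ ℚ⟮aeval ρ f⟯ := by
    rw [heq]
    exact mem_adjoin_simple_self ℚ ρ
  have h2 : ρ ∈ (ℚ⟮aeval ρ f⟯).toSubalgebra := h1
  rw [adjoin_simple_toSubalgebra_of_isAlgebraic hfi.isAlgebraic,
    Algebra.adjoin_singleton_eq_range_aeval] at h2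
  obtain ⟨q, hq⟩ := h2
  have h3 : aeval B (q.comp f - X) = 0 := by
    refine aeval_zero_of_root hirr (hs ρ hρ) ?_
    rw [map_sub, aeval_comp, aeval_X]
    have h4 : aeval (aeval ρ f) q = ρ := hq
    rw [h4, sub_self]
  rw [map_sub, aeval_comp, aeval_X, sub_eq_zero] at h3
  have h5 : aeval (aeval B f) q ∈ Algebra.adjoin ℚ {aeval B f} :=
    aeval_mem_adjoin_singleton ℚ _
  rwa [h3] at h5

end Pool.Agent.W5h86.RK
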