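import Pool.Agent.W5h86.RK.Sg

set_option autoImplicit false

/-!
# The places and the conjugates
-/

open Module Polynomial

noncomputable section

namespace Pool.Agent.W5h86.RK

open Pool.Agent.Y102 Pool.Agent.W516.DR Pool.Agent.W516.KC Pool.Agent.W5h86.LZ
open Pool.Agent.W5h86.LY

/-- the dimension of the algebra generated by an endomorphism -/
lemma finrank_adjoin {V : Type} [AddCommGroup V] [Module ℚ V] [FiniteDimensional ℚ V]
    (P : Module.End ℚ V) :
    finrank ℚ (Algebra.adjoin ℚ {P}) = (minpoly ℚ P).natDegree := by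
  have hint : IsIntegral ℚ P := Algebra.IsIntegral.isIntegral P
  have h1 : Subalgebra.toSubmodule (Algebra.adjoin ℚ {P}) =
      Submodule.span ℚ (Set.range fun i : Fin (minpoly ℚ P).natDegree => P ^ (i : ℕ)) := by
    apply le_antisymm
    · intro x hx
      rw [Subalgebra.mem_toSubmodule, Algebra.adjoin_singleton_eq_range_aeval] at hx
      obtain ⟨p, rfl⟩ := hx
      exact hint.mem_span_pow ⟨p, rfl⟩
    · rw [Submodule.span_le]
      rintro _ ⟨i, rfl⟩
      exact pow_mem (Algebra.self_mem_adjoin_singleton ℚ P) _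
  have h2 := finrank_span_eq_card (linearIndependent_pow (K := ℚ) P)
  rw [← h1, Fintype.card_fin] at h2
  exact h2

variable {g : ℕ} {A : AbVar g} {P : Module.End ℚ A.H1} {M : (Fin g → ℂ) →ₗ[ℂ] (Fin g → ℂ)}
  {e : Basis (Fin g) ℂ (Fin g → ℂ)} {t : Fin g → ℝ}

lemma aeval_real_eig {B : Module.End ℚ A.H1} {ρ : ℝ} {v : Fin g → ℂ} (hv : A.ext B v = ρ • v)
    (q : ℝ[X]) : aeval (extA A B) q v = (q.eval ρ) • v := by
  induction q using Polynomial.induction_on' with
  | add p q hp hq => rw [map_add, LinearMap.add_apply, hp, hq, eval_add, add_smul]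
  | monomial n a =>
    rw [aeval_monomial, eval_monomial, Module.End.mul_apply, Module.algebraMap_end_apply]
    have h3 : (extA A B ^ n) v = (ρ ^ n) • v := by
      induction n with
      | zero => rw [pow_zero, pow_zero, one_smul, Module.End.one_apply]
      | succ n ih =>
        rw [pow_succ', Module.End.mul_apply, ih, map_smul, extA_apply, hv, smul_smul, pow_succ]
    rw [h3, smul_smul]

lemma ext_sq (hM : ∀ w, M (A.per w) = A.per (P w)) (v : Fin g → ℂ) :
    A.ext (P * P) v = M (M v) := by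
  rw [AbVar.ext_mul, LinearMap.comp_apply, ext_eq hM, ext_eq hM]

lemma smul_mem_Wp (hM : ∀ w, M (A.per w) = A.per (P w))
    (he : ∀ i, M (e i) = (t i * Complex.I : ℂ) • e i) (i : Fin g) (c : ℂ) :
    c • e i ∈ Wp A P (-(t i) ^ 2) := by
  rw [mem_Wp, ext_sq hM, map_smul, map_smul, he, map_smul, he]
  funext j
  simp only [Pi.smul_apply, smul_eq_mul, Complex.real_smul]
  push_cast
  linear_combination (c * (t i : ℂ) ^ 2 * e i j) * Complex.I_sq

lemma e_mem_Wp (hM : ∀ w, M (A.per w) = A.per (P w))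
    (he : ∀ i, M (e i) = (t i * Complex.I : ℂ) • e i) (i : Fin g) :
    e i ∈ Wp A P (-(t i) ^ 2) := by
  have h := smul_mem_Wp hM he i 1
  rwa [one_smul] at h

/-- the places are roots of the minimal polynomial -/
lemma place_root (hM : ∀ w, M (A.per w) = A.per (P w))
    (he : ∀ i, M (e i) = (t i * Complex.I : ℂ) • e i) (i : Fin g) :
    aeval (-(t i) ^ 2 : ℝ) (minpoly ℚ (P * P)) = 0 := by
  have h1 := ext_aeval_eig (mem_Wp.1 (e_mem_Wp hM he i)) (minpoly ℚ (P * P))
  rw [minpoly.aeval] at h1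
  have h2 : A.ext (0 : Module.End ℚ A.H1) = 0 := map_zero (extA A)
  rw [h2, LinearMap.zero_apply] at h1
  exact (smul_eq_zero.1 h1.symm).resolve_right (e.ne_zero i)

/-- the complex conjugates -/
lemma conj_root (hM : ∀ w, M (A.per w) = A.per (P w))
    (he : ∀ i, M (e i) = (t i * Complex.I : ℂ) • e i) (i : Fin g) :
    aeval (t i * Complex.I : ℂ) (minpoly ℚ P) = 0 := by
  have h0 : ∀ n : ℕ, A.ext (P ^ n) (e i) = ((t i * Complex.I : ℂ) ^ n) • e i := by
    intro n
    induction n with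
    | zero =>
      rw [pow_zero, pow_zero, one_smul]
      have h2 : extA A 1 = 1 := map_one _
      exact LinearMap.congr_fun h2 (e i)
    | succ n ih =>
      rw [pow_succ', AbVar.ext_mul, LinearMap.comp_apply, ih, ext_eq hM, map_smul, he, smul_smul,
        pow_succ]
  have h1 : ∀ p : ℚ[X], A.ext (aeval P p) (e i) = (aeval (t i * Complex.I : ℂ) p) • e i := by
    intro p
    induction p using Polynomial.induction_on' with
    | add p q hp hq =>
      rw [map_add, map_add, add_smul, ← hp, ← hq]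
      have h2 : extA A (aeval P p + aeval P q) = extA A (aeval P p) + extA A (aeval P q) :=
        map_add _ _ _
      exact LinearMap.congr_fun h2 (e i)
    | monomial n a =>
      rw [aeval_monomial, aeval_monomial, ← Algebra.smul_def, ← Algebra.smul_def]
      have h2 : extA A (a • P ^ n) = a • extA A (P ^ n) := map_smul (extA A) a _
      have h3 := LinearMap.congr_fun h2 (e i)
      rw [LinearMap.smul_apply, extA_apply, extA_apply, h0, ← smul_assoc] at h3
      exact h3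
  have h2 := h1 (minpoly ℚ P)
  rw [minpoly.aeval] at h2
  have h3 : A.ext (0 : Module.End ℚ A.H1) = 0 := map_zero (extA A)
  rw [h3, LinearMap.zero_apply] at h2
  exact (smul_eq_zero.1 h2.symm).resolve_right (e.ne_zero i)

/-- the number of places -/
lemma card_places (hM : ∀ w, M (A.per w) = A.per (P w))
    (he : ∀ i, M (e i) = (t i * Complex.I : ℂ) • e i) :
    (minpoly ℚ (P * P)).natDegree ≤ (Finset.univ.image fun i => (-(t i) ^ 2 : ℝ)).card := by
  classical
  by_contra hcon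
  push Not at hcon
  set Pl := Finset.univ.image fun i => (-(t i) ^ 2 : ℝ) with hPl
  set B := P * P with hB
  set Q : ℝ[X] := ∏ ρ ∈ Pl, (X - C ρ) with hQ
  have hQm : Q.Monic := monic_prod_X_sub_C _ _
  have hQd : Q.natDegree = Pl.card := by
    rw [hQ, natDegree_prod_of_monic _ _ (fun ρ _ => monic_X_sub_C ρ)]
    simp
  have h1 : aeval (extA A B) Q = 0 := by
    refine LinearMap.ext fun v => ?_
    rw [LinearMap.zero_apply, ← e.sum_repr v, map_sum]
    refine Finset.sum_eq_zero fun i _ => ?_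
    have h2 := mem_Wp.1 (smul_mem_Wp hM he i (e.repr v i))
    have h3 := aeval_real_eig h2
    rw [h3]
    have h4 : Q.eval (-(t i) ^ 2) = 0 := by
      rw [hQ, eval_prod]
      have h5 : (-(t i) ^ 2 : ℝ) ∈ Pl := Finset.mem_image.2 ⟨i, Finset.mem_univ i, rfl⟩
      apply Finset.prod_eq_zero h5
      rw [eval_sub, eval_X, eval_C, sub_self]
    rw [h4, zero_smul]
  have h2 : ∀ f : ℝ →ₗ[ℚ] ℚ, ∀ k : Fin (minpoly ℚ B).natDegree, f (Q.coeff k) = 0 := by
    intro f
    refine Fintype.linearIndependent_iff.1 (linearIndependent_pow (K := ℚ) B)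
      (fun k => f (Q.coeff k)) ?_
    refine LinearMap.ext fun w => ?_
    have h3 := LinearMap.congr_fun h1 (A.per w)
    rw [aeval_eq_sum_range' (by rw [hQd]; exact hcon), LinearMap.sum_apply,
      LinearMap.zero_apply] at h3
    have h4 := congrArg (A.cmp f) h3
    rw [map_zero, map_sum, Finset.sum_range] at h4
    rw [LinearMap.sum_apply, LinearMap.zero_apply, ← h4]
    refine Finset.sum_congr rfl fun k _ => ?_
    rw [LinearMap.smul_apply, LinearMap.smul_apply, ← map_pow, extA_apply, AbVar.ext_apply,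
      AbVar.cmp_smul_per]
  have h3 : Q.coeff Pl.card = 0 := exists_sep fun f => h2 f ⟨Pl.card, hcon⟩
  rw [← hQd, hQm.coeff_natDegree] at h3
  exact one_ne_zero h3

/-- the squares of the conjugates -/
lemma conj_sq (hM : ∀ w, M (A.per w) = A.per (P w))
    (he : ∀ i, M (e i) = (t i * Complex.I : ℂ) • e i) {s : ℂ}
    (hs : aeval s (minpoly ℚ P) = 0) : ∃ i, s ^ 2 = ((-(t i) ^ 2 : ℝ) : ℂ) := by
  classical
  set μ := minpoly ℚ (P * P) with hμ
  have hint : IsIntegral ℚ (P * P) := Algebra.IsIntegral.isIntegral (P * P)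
  have hμ0 : μ ≠ 0 := minpoly.ne_zero hint
  have h1 : aeval (s ^ 2) μ = 0 := by
    have h2 : minpoly ℚ P ∣ μ.comp (X ^ 2) := by
      apply minpoly.dvd
      rw [aeval_comp, map_pow, aeval_X, sq, hμ, minpoly.aeval]
    obtain ⟨q, hq⟩ := h2
    have h3 : aeval s (μ.comp (X ^ 2)) = aeval (s ^ 2) μ := by
      rw [aeval_comp, map_pow, aeval_X]
    rw [← h3, hq, map_mul, hs, zero_mul]
  set Pl := Finset.univ.image fun i => (-(t i) ^ 2 : ℝ) with hPl
  have h2 : (Pl.image fun ρ : ℝ => (ρ : ℂ)) ⊆ (μ.map (algebraMap ℚ ℂ)).roots.toFinset := by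
    intro x hx
    obtain ⟨ρ, hρ, rfl⟩ := Finset.mem_image.1 hx
    obtain ⟨i, -, rfl⟩ := Finset.mem_image.1 hρ
    rw [Multiset.mem_toFinset, mem_roots_map hμ0, ← aeval_def]
    have h3 := place_root hM he i
    have h4 := aeval_algebraMap_apply ℂ (-(t i) ^ 2 : ℝ) μ
    rw [h3, map_zero] at h4
    exact h4
  have h3 : (μ.map (algebraMap ℚ ℂ)).roots.toFinset.card ≤
      (Pl.image fun ρ : ℝ => (ρ : ℂ)).card := by
    rw [Finset.card_image_of_injective _ Complex.ofReal_injective]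
    calc _ ≤ _ := Multiset.toFinset_card_le _
      _ ≤ _ := card_roots' _
      _ = μ.natDegree := natDegree_map _
      _ ≤ _ := card_places hM he
  have h4 := Finset.eq_of_subset_of_card_le h2 h3
  have h5 : s ^ 2 ∈ (Pl.image fun ρ : ℝ => (ρ : ℂ)) := by
    rw [h4, Multiset.mem_toFinset, mem_roots_map hμ0, ← aeval_def]
    exact h1
  obtain ⟨ρ, hρ, h6⟩ := Finset.mem_image.1 h5
  obtain ⟨i, -, rfl⟩ := Finset.mem_image.1 hρ
  exact ⟨i, h6.symm⟩

/-- the conjugates are imaginary -/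
lemma sq_neg_real {s : ℂ} {τ : ℝ} (h : s ^ 2 = ((-τ ^ 2 : ℝ) : ℂ)) :
    s = (τ : ℂ) * Complex.I ∨ s = ((-τ : ℝ) : ℂ) * Complex.I := by
  have h1 : (s - τ * Complex.I) * (s + τ * Complex.I) = 0 := by
    push_cast at h
    linear_combination h - (τ : ℂ) ^ 2 * Complex.I_sq
  rcases mul_eq_zero.1 h1 with h2 | h2
  · exact Or.inl (sub_eq_zero.1 h2)
  · right
    push_cast
    linear_combination h2

/-- **Definite places.** -/
lemma def_place (hM : ∀ w, M (A.per w) = A.per (P w)) {s : ℂ} {τ : ℝ} (hτ : τ ≠ 0)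
    (h : s ^ 2 = ((-τ ^ 2 : ℝ) : ℂ))
    (hd : LinearMap.ker (M - s • LinearMap.id) = ⊥ ∨ LinearMap.ker (M - (-s) • LinearMap.id) = ⊥) :
    ∃ τ' : ℝ, τ' ≠ 0 ∧ ∀ v ∈ Wp A P (-τ ^ 2), M v = τ' • (Complex.I • v) := by
  have key : ∀ s : ℂ, s ^ 2 = ((-τ ^ 2 : ℝ) : ℂ) → LinearMap.ker (M - s • LinearMap.id) = ⊥ →
      ∀ v ∈ Wp A P (-τ ^ 2), M v = (-s) • v := by
    intro s hs hk v hv
    rw [mem_Wp, ext_sq hM] at hv
    have h1 : M v + s • v ∈ LinearMap.ker (M - s • LinearMap.id) := by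
      rw [LinearMap.mem_ker, LinearMap.sub_apply, LinearMap.smul_apply, LinearMap.id_apply,
        map_add, map_smul, hv, smul_add, smul_smul, ← sq, hs]
      funext j
      simp only [Pi.sub_apply, Pi.add_apply, Pi.smul_apply, smul_eq_mul, Complex.real_smul,
        Pi.zero_apply]
      ring
    rw [hk, Submodule.mem_bot] at h1
    rw [neg_smul]
    exact eq_neg_of_add_eq_zero_left h1
  have key2 : ∀ s : ℂ, s ^ 2 = ((-τ ^ 2 : ℝ) : ℂ) → (∀ v ∈ Wp A P (-τ ^ 2), M v = s • v) →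
      ∃ τ' : ℝ, τ' ≠ 0 ∧ ∀ v ∈ Wp A P (-τ ^ 2), M v = τ' • (Complex.I • v) := by
    intro s hs hv
    have h3 : ∀ (r : ℝ) (v : Fin g → ℂ), ((r : ℂ) * Complex.I) • v = r • (Complex.I • v) := by
      intro r v
      funext j
      simp only [Pi.smul_apply, smul_eq_mul, Complex.real_smul]
      ring
    rcases sq_neg_real hs with h2 | h2
    · exact ⟨τ, hτ, fun v hv' => by rw [hv v hv', h2, h3]⟩
    · exact ⟨-τ, neg_ne_zero.2 hτ, fun v hv' => by rw [hv v hv', h2, h3]⟩
  rcases hd with h1 | h1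
  · exact key2 (-s) (by rw [neg_sq, h]) (key s h h1)
  · refine key2 s h fun v hv => ?_
    have h2 := key (-s) (by rw [neg_sq, h]) h1 v hv
    rwa [neg_neg] at h2

/-- **Indefinite places.** -/
lemma indef_absurd (hM : ∀ w, M (A.per w) = A.per (P w)) (hPs : IsSkew A.om P) {s : ℂ} {τ : ℝ}
    (hτ : τ ≠ 0) (h : s ^ 2 = ((-τ ^ 2 : ℝ) : ℂ)) (hdim : finrank ℝ (Wp A P (-τ ^ 2)) ≤ 4)
    {x y : Module.End ℚ A.H1} (hx : x * P = P * x) (hy : y * P = P * y) (hxs : IsSkew A.om x)
    (hys : IsSkew A.om y) (hxy : x * y = -(y * x)) {f f' : ℚ[X]} (hf : x * x = aeval (P * P) f)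
    (hf' : y * y = aeval (P * P) f') (h1 : aeval (-τ ^ 2 : ℝ) f < 0)
    (h2 : aeval (-τ ^ 2 : ℝ) f' < 0) :
    LinearMap.ker (M - s • LinearMap.id) = ⊥ ∨ LinearMap.ker (M - (-s) • LinearMap.id) = ⊥ := by
  by_contra hcon
  push Not at hcon
  obtain ⟨h3, h4⟩ := hcon
  obtain ⟨a, ha, ha0⟩ := Submodule.exists_mem_ne_zero_of_ne_bot h3
  obtain ⟨c, hc, hc0⟩ := Submodule.exists_mem_ne_zero_of_ne_bot h4
  rw [LinearMap.mem_ker, LinearMap.sub_apply, LinearMap.smul_apply, LinearMap.id_apply,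
    sub_eq_zero] at ha hc
  have hW : ∀ (s : ℂ) (v : Fin g → ℂ), s ^ 2 = ((-τ ^ 2 : ℝ) : ℂ) → M v = s • v →
      v ∈ Wp A P (-τ ^ 2) := by
    intro s v hs hv
    rw [mem_Wp, ext_sq hM, hv, map_smul, hv, smul_smul, ← sq, hs]
    funext j
    simp only [Pi.smul_apply, smul_eq_mul, Complex.real_smul]
  have hs' : (-s) ^ 2 = ((-τ ^ 2 : ℝ) : ℂ) := by rw [neg_sq, h]
  have haW := hW s a h ha
  have hcW := hW (-s) c hs' hc
  have hval : ∀ (r : ℝ) (v : Fin g → ℂ), M v = ((r : ℂ) * Complex.I) • v →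
      A.E v (M v) = r * A.E v (Complex.I • v) := by
    intro r v hv
    have h5 : ((r : ℂ) * Complex.I) • v = r • (Complex.I • v) := by
      funext j
      simp only [Pi.smul_apply, smul_eq_mul, Complex.real_smul]
      ring
    rw [hv, h5, map_smul, smul_eq_mul]
  have key : ∀ (r : ℝ) (u v : Fin g → ℂ), 0 < r → u ∈ Wp A P (-τ ^ 2) → v ∈ Wp A P (-τ ^ 2) →
      u ≠ 0 → v ≠ 0 → M u = ((r : ℂ) * Complex.I) • u →
      M v = (((-r : ℝ) : ℂ) * Complex.I) • v → False := by
    intro r u v hr hu hv hu0 hv0 hMu hMv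
    have h5 := hval r u hMu
    have h6 := hval (-r) v hMv
    have h7 : 0 < A.E u (M u) := by
      rw [h5]
      exact mul_pos hr (A.E_pos hu0)
    have h8 := sign_indef hM hPs hdim hx hy hxs hys hxy hf hf' h1 h2 hu hv h7
    rw [h6] at h8
    have h9 := mul_pos hr (A.E_pos hv0)
    linarith
  have hneg : ∀ r : ℝ, -(((r : ℝ) : ℂ) * Complex.I) = ((-r : ℝ) : ℂ) * Complex.I := by
    intro r
    push_cast
    ring
  rcases sq_neg_real h with h5 | h5
  · rw [h5] at ha hc
    rw [hneg] at hc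
    rcases lt_or_gt_of_ne hτ with h6 | h6
    · refine key (-τ) c a (by linarith) hcW haW hc0 ha0 hc ?_
      rw [neg_neg]
      exact ha
    · exact key τ a c h6 haW hcW ha0 hc0 ha hc
  · rw [h5] at ha hc
    rw [hneg, neg_neg] at hc
    rcases lt_or_gt_of_ne hτ with h6 | h6
    · refine key (-τ) a c (by linarith) haW hcW ha0 hc0 ha ?_
      rw [neg_neg]
      exact hc
    · exact key τ c a h6 hcW haW hc0 ha0 hc ha

end Pool.Agent.W5h86.RK
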