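import Pool.Agent.W5h86.RK.Mn
import Pool.Agent.W5h86.LX.Br8

set_option autoImplicit false

/-!
# The derived algebra and the centre in rank two
-/

open Module Polynomial

noncomputable section

namespace Pool.Agent.W5h86.RK

open Pool.Agent.Y102 Pool.Agent.W516.DR Pool.Agent.W516.KC Pool.Agent.W5h86.LZ
open Pool.Agent.W5h86.LY

lemma exists_max {α : Type} (p : α → Prop) (c : α → ℕ) (N : ℕ) (hb : ∀ x, p x → c x ≤ N)
    (h : ∃ x, p x) : ∃ x, p x ∧ ∀ y, p y → c y ≤ c x := by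
  let S : Set ℕ := {n | ∃ x, p x ∧ c x = n}
  have h1 : S.Nonempty := by
    obtain ⟨x, hx⟩ := h
    exact ⟨c x, x, hx, rfl⟩
  have h2 : BddAbove S := by
    refine ⟨N, ?_⟩
    rintro _ ⟨x, hx, rfl⟩
    exact hb x hx
  obtain ⟨x, hx, hxc⟩ := Nat.sSup_mem h1 h2
  refine ⟨x, hx, fun y hy => ?_⟩
  rw [hxc]
  exact le_csSup h2 ⟨y, hy, rfl⟩

/-- a generic element for finitely many quadratic functions -/
lemma exists_generic {V : Type} [AddCommGroup V] [Module ℚ V] (K : V → Prop)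
    (hadd : ∀ x y, K x → K y → K (x + y)) (hsmul : ∀ (c : ℚ) x, K x → K (c • x))
    {n : ℕ} (q : Fin n → V → ℝ) (b : Fin n → V → V → ℝ)
    (hq : ∀ i x y, ∀ r : ℚ, q i (x + r • y) = q i x + r * b i x y + r ^ 2 * q i y)
    (hq0 : ∀ i, q i 0 = 0) (hne : ∃ x, K x ∧ x ≠ 0) :
    ∃ x, K x ∧ x ≠ 0 ∧ ∀ i j, q i x = q j x → ∀ y, K y → q i y = q j y := by
  classical
  let c : V → ℕ := fun x =>
    (Finset.univ.filter fun p : Fin n × Fin n => q p.1 x ≠ q p.2 x).card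
  obtain ⟨x, ⟨hx, hx0⟩, hmax⟩ := exists_max (fun x => K x ∧ x ≠ 0) c (Fintype.card (Fin n × Fin n))
    (fun x _ => Finset.card_le_univ _) hne
  refine ⟨x, hx, hx0, fun i j hij y hy => ?_⟩
  by_contra hcon
  let D : Fin n × Fin n → ℝ[X] := fun p =>
    C (q p.1 x - q p.2 x) + C (b p.1 x y - b p.2 x y) * X + C (q p.1 y - q p.2 y) * X ^ 2
  have hD : ∀ p (r : ℚ), (D p).eval (r : ℝ) = q p.1 (x + r • y) - q p.2 (x + r • y) := by
    intro p r
    simp only [D, eval_add, eval_mul, eval_C, eval_X, eval_pow, hq]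
    ring
  let S := (Finset.univ.filter fun p : Fin n × Fin n => q p.1 x ≠ q p.2 x)
  have hDS : ∀ p ∈ insert (i, j) S, D p ≠ 0 := by
    intro p hp h0
    rcases Finset.mem_insert.1 hp with rfl | hp
    · have h1 : (D (i, j)).coeff 2 = q i y - q j y := by
        simp only [D, coeff_add, coeff_C_mul, coeff_C, coeff_X, coeff_X_pow]
        norm_num
      rw [h0, coeff_zero] at h1
      exact hcon (sub_eq_zero.1 h1.symm)
    · have h1 : (D p).coeff 0 = q p.1 x - q p.2 x := by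
        simp [D]
      rw [h0, coeff_zero] at h1
      exact (Finset.mem_filter.1 hp).2 (sub_eq_zero.1 h1.symm)
  set Q := ∏ p ∈ insert (i, j) S, D p with hQ
  have hQ0 : Q ≠ 0 := Finset.prod_ne_zero_iff.2 hDS
  obtain ⟨r, hr⟩ : ∃ r : ℚ, Q.eval (r : ℝ) ≠ 0 := by
    by_contra hall
    push Not at hall
    apply hQ0
    apply eq_zero_of_infinite_isRoot
    refine (Set.infinite_range_of_injective (f := fun r : ℚ => (r : ℝ)) Rat.cast_injective).mono ?_
    rintro _ ⟨r, rfl⟩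
    exact hall r
  rw [hQ, eval_prod, Finset.prod_ne_zero_iff] at hr
  have h1 : ∀ p ∈ insert (i, j) S, q p.1 (x + r • y) ≠ q p.2 (x + r • y) := by
    intro p hp h2
    apply hr p hp
    rw [hD, h2, sub_self]
  have h2 : K (x + r • y) := hadd _ _ hx (hsmul _ _ hy)
  have h3 : x + r • y ≠ 0 := by
    intro h0
    apply h1 (i, j) (Finset.mem_insert_self _ _)
    rw [h0, hq0, hq0]
  have h4 := hmax _ ⟨h2, h3⟩
  have h5 : insert (i, j) S ⊆
      Finset.univ.filter fun p : Fin n × Fin n => q p.1 (x + r • y) ≠ q p.2 (x + r • y) := by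
    intro p hp
    exact Finset.mem_filter.2 ⟨Finset.mem_univ _, h1 p hp⟩
  have h6 := Finset.card_le_card h5
  have h7 : (i, j) ∉ S := fun h => (Finset.mem_filter.1 h).2 hij
  rw [Finset.card_insert_of_notMem h7] at h6
  have h8 : c (x + r • y) = (Finset.univ.filter fun p : Fin n × Fin n =>
    q p.1 (x + r • y) ≠ q p.2 (x + r • y)).card := rfl
  have h9 : c x = S.card := rfl
  omega

variable {g : ℕ}

/-- **The derived algebra and the centre.** -/
theorem core (A : AbVar g) {P : Module.End ℚ A.H1} (hP : P ∈ A.EA) (hPs : IsSkew A.om P)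
    (hEA : ∀ Q ∈ A.EA, Q ∈ Algebra.adjoin ℚ {P})
    (hsimple : ∀ Q ∈ A.EA, Q ≠ 0 → Function.Injective Q)
    (hdeg : (minpoly ℚ P).natDegree = g) {M : (Fin g → ℂ) →ₗ[ℂ] (Fin g → ℂ)}
    (hM : ∀ w, M (A.per w) = A.per (P w))
    (hdef : ∃ s : ℂ, aeval s (minpoly ℚ P) = 0 ∧ (LinearMap.ker (M - s • LinearMap.id) = ⊥ ∨
      LinearMap.ker (M - (-s) • LinearMap.id) = ⊥))
    (hN : ∀ f : ℚ[X], (∀ s s' : ℂ, aeval s (minpoly ℚ P) = 0 → aeval s' (minpoly ℚ P) = 0 →
      aeval (s ^ 2) f = aeval (s' ^ 2) f →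
      (LinearMap.ker (M - s • LinearMap.id) = ⊥ ∨ LinearMap.ker (M - (-s) • LinearMap.id) = ⊥) →
      (LinearMap.ker (M - s' • LinearMap.id) = ⊥ ∨
        LinearMap.ker (M - (-s') • LinearMap.id) = ⊥)) →
      ∀ s s' : ℂ, aeval s (minpoly ℚ P) = 0 → aeval s' (minpoly ℚ P) = 0 →
      aeval (s ^ 2) f = aeval (s' ^ 2) f → s ^ 2 = s' ^ 2) :
    ∃ t, Dat A.om P t ∧ (∀ Z, T0 A.om P t Z → Z ∈ A.LA) ∧ ∃ X ∈ A.LA, X ∈ A.EA ∧ X ≠ 0 := by
  classical
  have hEA' : ∀ Q ∈ Algebra.adjoin ℚ {P}, Q ∈ A.EA := by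
    intro Q hQ
    rw [Algebra.adjoin_singleton_eq_range_aeval] at hQ
    obtain ⟨p, rfl⟩ := hQ
    exact A.aeval_mem hP p
  have hinj : ∀ Q ∈ Algebra.adjoin ℚ {P}, Q ≠ 0 → Function.Injective Q :=
    fun Q hQ hQ0 => hsimple Q (hEA' Q hQ) hQ0
  obtain ⟨s0, hs0, hs0d⟩ := hdef
  have hnt : Nontrivial A.H1 := by
    by_contra hcon
    rw [not_nontrivial_iff_subsingleton] at hcon
    have h1 : Subsingleton (Module.End ℚ A.H1) := ⟨fun a b => LinearMap.ext fun v =>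
      Subsingleton.elim _ _⟩
    rw [minpoly.subsingleton, map_one] at hs0
    exact one_ne_zero hs0
  obtain ⟨t, t1, t2, t3, t4, t5, t6, t7, ⟨T, hTP, hTE⟩, b0, b1, hb⟩ := exists_trace hinj (by
    rw [finrank_adjoin, hdeg, A.finrank_H1, Fintype.card_fin])
  have D : Dat A.om P t := ⟨A.om_anti, fun u hu => A.om_nondeg hu, hPs, hinj, t1, t2, t3, t4, t5,
    t6, t7⟩
  have hirr : Irreducible (minpoly ℚ (P * P)) :=
    irr_minpoly fun Q hQ hQ0 => hinj Q (F_le hQ) hQ0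
  obtain ⟨e, te, he⟩ := exists_basis_M (skew_M hM hPs)
  obtain ⟨i0, hi0⟩ := conj_sq hM he hs0
  have hP0 : P ≠ 0 := by
    rintro rfl
    have hM0 : ∀ v, M v = 0 := fun v => by
      rw [← ext_eq hM, ← extA_apply, map_zero, LinearMap.zero_apply]
    have h1 : aeval s0 (X : ℚ[X]) = 0 := by
      rw [minpoly.zero] at hs0
      exact hs0
    rw [aeval_X] at h1
    subst h1
    have h2 : LinearMap.ker (M - (0 : ℂ) • LinearMap.id) = ⊤ := by
      rw [eq_top_iff]
      intro v _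
      rw [LinearMap.mem_ker, zero_smul, sub_zero, hM0]
    have h3 : (⊤ : Submodule ℂ (Fin g → ℂ)) = ⊥ := by
      rcases hs0d with h4 | h4
      · rw [← h2, h4]
      · rw [neg_zero] at h4
        rw [← h2, h4]
    have h5 : e i0 ∈ (⊤ : Submodule ℂ (Fin g → ℂ)) := Submodule.mem_top
    rw [h3, Submodule.mem_bot] at h5
    exact e.ne_zero i0 h5
  have hte : ∀ i, te i ≠ 0 := by
    intro i h0
    have h1 := place_root hM he i
    have h2 : aeval (-(te i) ^ 2 : ℝ) (X : ℚ[X]) = 0 := by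
      rw [aeval_X, h0]
      norm_num
    have h3 := aeval_zero_of_root hirr h1 h2
    rw [aeval_X] at h3
    apply hP0
    by_contra hne
    have h4 := hinj P P_mem hne
    obtain ⟨v, hv⟩ := exists_ne (0 : A.H1)
    apply hv
    apply h4
    apply h4
    rw [map_zero, map_zero, ← Module.End.mul_apply, h3, LinearMap.zero_apply]
  have hcmP : ∀ X ∈ A.LA, X * P = P * X := fun X hX => hP X hX
  -- the elements of trace zero
  let K : Module.End ℚ A.H1 → Prop := fun X => X ∈ A.LA ∧ T0 A.om P t X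
  have hKadd : ∀ x y, K x → K y → K (x + y) := fun x y hx hy =>
    ⟨A.LA.add_mem hx.1 hy.1, D.t0_add hx.2 hy.2⟩
  have hKsmul : ∀ (c : ℚ) x, K x → K (c • x) := fun c x hx =>
    ⟨A.LA.smul_mem c hx.1, D.t0_smul hx.2 c⟩
  have hKbr : ∀ X ∈ A.LA, ∀ Y ∈ A.LA, K (X * Y - Y * X) := fun X hX Y hY =>
    ⟨A.LA_bracket hX hY, D.t0_bracket (hcmP X hX) (hcmP Y hY) (A.LA_skew hX) (A.LA_skew hY)⟩
  have hnc : ∀ X, X ∉ Algebra.adjoin ℚ {P} → ∃ Y ∈ A.LA, X * Y - Y * X ≠ 0 := by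
    intro X hX
    by_contra hcon
    push Not at hcon
    apply hX
    apply hEA
    intro Y hY
    exact (sub_eq_zero.1 (hcon Y hY)).symm
  have hdc : ∀ T : Module.End ℚ A.H1, T * P = P * T →
      T ∈ Algebra.adjoin ℚ (A.LA : Set (Module.End ℚ A.H1)) := by
    intro T hT
    exact mem_adjoin_of_comm A.semi_LA fun Q hQ => comm_adj hT (hEA Q hQ)
  have hKne : ∃ x, K x ∧ x ≠ 0 := by
    obtain ⟨X, hX, hXE⟩ : ∃ X ∈ A.LA, X ∉ Algebra.adjoin ℚ {P} := by
      by_contra hcon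
      push Not at hcon
      exact hTE ((Algebra.adjoin_le hcon) (hdc T hTP))
    obtain ⟨Y, hY, hne⟩ := hnc X hXE
    exact ⟨_, hKbr X hX Y hY, hne⟩
  -- the values at the places
  let lam : Fin g → Module.End ℚ A.H1 → ℝ := fun i X => (e.repr (A.ext X (e i)) i).re
  have hlam_add : ∀ i X Y, lam i (X + Y) = lam i X + lam i Y := by
    intro i X Y
    have h1 : A.ext (X + Y) = A.ext X + A.ext Y := map_add (extA A) X Y
    simp only [lam]
    rw [h1, LinearMap.add_apply, map_add, Finsupp.add_apply, Complex.add_re]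
  have hlam_smul : ∀ i (c : ℚ) X, lam i (c • X) = c * lam i X := by
    intro i c X
    have h1 : A.ext (c • X) = (c : ℝ) • A.ext X := by
      rw [← extA_apply, map_smul]
      refine LinearMap.ext fun v => ?_
      rw [LinearMap.smul_apply, LinearMap.smul_apply]
      exact (Rat.cast_smul_eq_qsmul ℝ c _).symm
    have h2 : ((c : ℝ) • A.ext X (e i)) = ((c : ℝ) : ℂ) • A.ext X (e i) := by
      funext j
      simp
    simp only [lam]
    rw [h1, LinearMap.smul_apply, h2, map_smul, Finsupp.smul_apply, smul_eq_mul,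
      Complex.re_ofReal_mul]
  have hlam_f : ∀ i (f : ℚ[X]), lam i (aeval (P * P) f) = aeval (-(te i) ^ 2 : ℝ) f := by
    intro i f
    have h1 := ext_aeval_eig (mem_Wp.1 (e_mem_Wp hM he i)) f
    have h2 : ((aeval (-(te i) ^ 2 : ℝ) f : ℝ) • e i) = ((aeval (-(te i) ^ 2 : ℝ) f : ℝ) : ℂ) • e i := by
      funext j
      simp
    simp only [lam]
    rw [h1, h2, map_smul, Finsupp.smul_apply, Basis.repr_self, Finsupp.single_eq_same, smul_eq_mul,
      mul_one, Complex.ofReal_re]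
  obtain ⟨x, hxK, hx0, hgen⟩ := exists_generic K hKadd hKsmul (fun i X => lam i (X * X))
    (fun i X Y => lam i (X * Y + Y * X)) (fun i X Y r => by
      have h1 : (X + r • Y) * (X + r • Y) = X * X + (r • (X * Y + Y * X) + (r ^ 2) • (Y * Y)) := by
        rw [add_mul, mul_add, mul_add, smul_mul_assoc, mul_smul_comm, smul_mul_assoc, mul_smul_comm,
          smul_smul, smul_add, sq]
        abel
      beta_reduce
      rw [h1, hlam_add, hlam_add, hlam_smul, hlam_smul]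
      push_cast
      ring) (fun i => by
      beta_reduce
      have h1 := hlam_smul i 0 0
      rw [zero_smul, Rat.cast_zero, zero_mul] at h1
      rw [mul_zero, h1]) hKne
  beta_reduce at hgen
  obtain ⟨Y, hY, hw0⟩ := hnc x fun h => hx0 (D.t0_not_E hxK.2 h)
  set w := x * Y - Y * x with hw
  have hwK : K w := hKbr x hxK.1 Y hY
  have hxF := D.t0_sq hxK.2
  have hac : x * w = -(w * x) := by
    have h1 : x * x * Y = Y * (x * x) := D.sq_comm hxK.2 (hcmP Y hY)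
    rw [hw]
    have h2 : x * (x * Y - Y * x) + (x * Y - Y * x) * x = x * x * Y - Y * (x * x) := by
      simp only [mul_sub, sub_mul, mul_assoc]
      abel
    rw [h1, sub_self] at h2
    exact eq_neg_of_add_eq_zero_left h2
  obtain ⟨f0, hf0⟩ : ∃ f : ℚ[X], x * x = aeval (P * P) f := by
    have h1 := D.t0_sq hxK.2
    rw [Algebra.adjoin_singleton_eq_range_aeval] at h1
    obtain ⟨f, hf⟩ := h1
    exact ⟨f, hf.symm⟩
  obtain ⟨f1, hf1⟩ : ∃ f : ℚ[X], w * w = aeval (P * P) f := by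
    have h1 := D.t0_sq hwK.2
    rw [Algebra.adjoin_singleton_eq_range_aeval] at h1
    obtain ⟨f, hf⟩ := h1
    exact ⟨f, hf.symm⟩
  have hneg : ∀ (s : ℂ) (i : Fin g), s ^ 2 = ((-(te i) ^ 2 : ℝ) : ℂ) →
      (LinearMap.ker (M - s • LinearMap.id) = ⊥ ∨ LinearMap.ker (M - (-s) • LinearMap.id) = ⊥) →
      aeval (-(te i) ^ 2 : ℝ) f0 < 0 ∧ aeval (-(te i) ^ 2 : ℝ) f1 < 0 := by
    intro s i hs hd
    obtain ⟨τ', hτ', hd'⟩ := def_place hM (hte i) hs hd
    exact ⟨sign_neg hM hτ' hirr (place_root hM he i) hd' hxK.2.cm hxK.2.sk hx0 hf0,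
      sign_neg hM hτ' hirr (place_root hM he i) hd' hwK.2.cm hwK.2.sk hw0 hf1⟩
  have hcast : ∀ (s : ℂ) (i : Fin g), s ^ 2 = ((-(te i) ^ 2 : ℝ) : ℂ) → ∀ f : ℚ[X],
      aeval (s ^ 2) f = ((aeval (-(te i) ^ 2 : ℝ) f : ℝ) : ℂ) := by
    intro s i hs f
    rw [hs]
    exact aeval_algebraMap_apply ℂ (-(te i) ^ 2 : ℝ) f
  have hinjf := hN f0 (fun s s' hs hs' hss hd => by
    obtain ⟨i, hi⟩ := conj_sq hM he hs
    obtain ⟨j, hj⟩ := conj_sq hM he hs'
    rw [hcast s i hi, hcast s' j hj, Complex.ofReal_inj] at hss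
    obtain ⟨n1, n2⟩ := hneg s i hi hd
    have h1 := hgen i j (by rw [hf0, hlam_f, hlam_f, hss]) w hwK
    rw [hf1, hlam_f, hlam_f] at h1
    rw [hss] at n1
    rw [h1] at n2
    exact indef_absurd hM hPs (hte j) hj (finrank_place hirr (place_root hM he j) hb) hxK.2.cm
      hwK.2.cm hxK.2.sk hwK.2.sk hac hf0 hf1 n1 n2)
  have hPl : ∀ ρ ∈ Finset.univ.image (fun i => (-(te i) ^ 2 : ℝ)),
      ∃ i, ρ = -(te i) ^ 2 := by
    intro ρ hρ
    obtain ⟨i, -, rfl⟩ := Finset.mem_image.1 hρ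
    exact ⟨i, rfl⟩
  have hB : P * P ∈ Algebra.adjoin ℚ {x * x} := by
    rw [hf0]
    refine gen_of_inj hirr (Finset.univ.image fun i => (-(te i) ^ 2 : ℝ)) ?_ (card_places hM he)
      ?_ ⟨-(te i0) ^ 2, Finset.mem_image.2 ⟨i0, Finset.mem_univ _, rfl⟩⟩
    · intro ρ hρ
      obtain ⟨i, rfl⟩ := hPl ρ hρ
      exact place_root hM he i
    · intro ρ hρ ρ' hρ' hff
      obtain ⟨i, rfl⟩ := hPl ρ hρ
      obtain ⟨j, rfl⟩ := hPl ρ' hρ'
      have hsq : ∀ i, ((te i : ℂ) * Complex.I) ^ 2 = ((-(te i) ^ 2 : ℝ) : ℂ) := by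
        intro i
        rw [mul_pow, Complex.I_sq]
        push_cast
        ring
      have h1 := hinjf _ _ (conj_root hM he i) (conj_root hM he j) (by
        rw [hcast _ i (hsq i), hcast _ j (hsq j), hff])
      rw [hsq, hsq, Complex.ofReal_inj] at h1
      exact h1
  have hsqne : ∀ (X : Module.End ℚ A.H1) (f : ℚ[X]), X * X = aeval (P * P) f →
      aeval (-(te i0) ^ 2 : ℝ) f < 0 → X * X ≠ 0 := by
    intro X f hf hn h0
    have h1 := hlam_f i0 f
    rw [← hf, h0] at h1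
    have h2 := hlam_smul i0 0 0
    rw [zero_smul, Rat.cast_zero, zero_mul] at h2
    rw [h2] at h1
    rw [← h1] at hn
    exact lt_irrefl _ hn
  obtain ⟨m1, m2⟩ := hneg s0 i0 hi0 hs0d
  have hFr : Fr A.om P t x w := ⟨hxK.2, hwK.2, hac, hsqne x f0 hf0 m1, hsqne w f1 hf1 m2⟩
  refine ⟨t, D, fun Z hZ => D.all_mem (fun X hX Y hY => A.LA_bracket hX hY) hFr hxK.1 hwK.1 hB hZ,
    ?_⟩
  -- the centre
  by_contra hcon
  push Not at hcon
  have h0 : T0 A.om P t 0 := by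
    have h1 := D.t0_smul hxK.2 0
    rwa [zero_smul] at h1
  let S : Submodule ℚ (Module.End ℚ A.H1) :=
    { carrier := {Z | T0 A.om P t Z}
      zero_mem' := h0
      add_mem' := fun {a b} ha hb => D.t0_add ha hb
      smul_mem' := fun c a ha => D.t0_smul ha c }
  have hS : A.LA ≤ S := Pool.Agent.W5h86.LX.LA_perfect hcon fun X hX Y hY => (hKbr X hX Y hY).2
  obtain ⟨X, hX, hXn⟩ := D.not_all_t0 hP0 (hdc P rfl)
  exact hXn (hS hX)

end Pool.Agent.W5h86.RK
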