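import Pool.Agent.W5h86.RK.Tr

set_option autoImplicit false
set_option linter.unusedSectionVars false
set_option linter.unusedSimpArgs false

/-!
# Lie algebras of skew-symmetric endomorphisms which commute with a field acting with rank two
-/

open Module Polynomial

namespace Pool.Agent.W5h86.RK

variable {V : Type} [AddCommGroup V] [Module ℚ V] [FiniteDimensional ℚ V]

/-- skew-symmetry -/
def Skw (ω : V →ₗ[ℚ] V →ₗ[ℚ] ℚ) (Z : Module.End ℚ V) : Prop :=
  ∀ u v, ω (Z u) v + ω u (Z v) = 0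

/-- symmetry -/
def Sym (ω : V →ₗ[ℚ] V →ₗ[ℚ] ℚ) (Z : Module.End ℚ V) : Prop :=
  ∀ u v, ω (Z u) v = ω u (Z v)

/-- the situation -/
structure Dat (ω : V →ₗ[ℚ] V →ₗ[ℚ] ℚ) (P : Module.End ℚ V)
    (t : Module.End ℚ V → Module.End ℚ V) : Prop where
  anti : ∀ u v, ω u v = -ω v u
  nondeg : ∀ u, (∀ v, ω u v = 0) → u = 0
  skew : Skw ω P
  inj : ∀ Q ∈ Algebra.adjoin ℚ {P}, Q ≠ 0 → Function.Injective Q
  mem : ∀ Z, Z * P = P * Z → t Z ∈ Algebra.adjoin ℚ {P}
  add : ∀ Z Z', Z * P = P * Z → Z' * P = P * Z' → t (Z + Z') = t Z + t Z'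
  smul : ∀ (c : ℚ) Z, Z * P = P * Z → t (c • Z) = c • t Z
  comm : ∀ Z Z', Z * P = P * Z → Z' * P = P * Z' → t (Z * Z') = t (Z' * Z)
  two : ∀ Z ∈ Algebra.adjoin ℚ {P}, t Z = Z + Z
  ch : ∀ Z, Z * P = P * Z → Z * Z - t Z * Z ∈ Algebra.adjoin ℚ {P}
  mulE : ∀ Q ∈ Algebra.adjoin ℚ {P}, ∀ Z, Z * P = P * Z → t (Q * Z) = Q * t Z

variable {ω : V →ₗ[ℚ] V →ₗ[ℚ] ℚ} {P : Module.End ℚ V} {t : Module.End ℚ V → Module.End ℚ V}

lemma comm_adj {T S Q : Module.End ℚ V} (h : T * S = S * T) (hQ : Q ∈ Algebra.adjoin ℚ {S}) :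
    T * Q = Q * T := by
  induction hQ using Algebra.adjoin_induction with
  | mem x hx =>
    rw [Set.mem_singleton_iff] at hx
    rw [hx, h]
  | algebraMap r => exact (Algebra.commutes r T).symm
  | add a b _ _ ha hb => rw [mul_add, add_mul, ha, hb]
  | mul a b _ _ ha hb => rw [← mul_assoc, ha, mul_assoc, hb, mul_assoc]

lemma comm_in {S Q Q' : Module.End ℚ V} (hQ : Q ∈ Algebra.adjoin ℚ {S})
    (hQ' : Q' ∈ Algebra.adjoin ℚ {S}) : Q * Q' = Q' * Q :=
  comm_adj (comm_adj rfl hQ).symm hQ'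

lemma P_mem : P ∈ Algebra.adjoin ℚ {P} := Algebra.self_mem_adjoin_singleton ℚ P

lemma F_le : Algebra.adjoin ℚ {P * P} ≤ Algebra.adjoin ℚ {P} := by
  apply Algebra.adjoin_le
  rintro x hx
  rw [Set.mem_singleton_iff] at hx
  rw [hx]
  exact mul_mem P_mem P_mem

lemma E_dec {Q : Module.End ℚ V} (hQ : Q ∈ Algebra.adjoin ℚ {P}) :
    ∃ a ∈ Algebra.adjoin ℚ {P * P}, ∃ b ∈ Algebra.adjoin ℚ {P * P}, Q = a + P * b := by
  induction hQ using Algebra.adjoin_induction with
  | mem x hx =>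
    rw [Set.mem_singleton_iff] at hx
    exact ⟨0, zero_mem _, 1, one_mem _, by rw [hx, zero_add, mul_one]⟩
  | algebraMap r => exact ⟨algebraMap ℚ _ r, Subalgebra.algebraMap_mem _ r, 0, zero_mem _, by
      rw [mul_zero, add_zero]⟩
  | add x y _ _ hx hy =>
    obtain ⟨a, ha, b, hb, rfl⟩ := hx
    obtain ⟨a', ha', b', hb', rfl⟩ := hy
    exact ⟨a + a', add_mem ha ha', b + b', add_mem hb hb', by rw [mul_add]; abel⟩
  | mul x y _ _ hx hy =>
    obtain ⟨a, ha, b, hb, rfl⟩ := hx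
    obtain ⟨a', ha', b', hb', rfl⟩ := hy
    have hP2 : P * P ∈ Algebra.adjoin ℚ {P * P} := Algebra.self_mem_adjoin_singleton ℚ _
    have h1 : a * P = P * a := (comm_adj rfl (F_le ha)).symm
    have h2 : b * P = P * b := (comm_adj rfl (F_le hb)).symm
    refine ⟨a * a' + (P * P) * (b * b'), add_mem (mul_mem ha ha') (mul_mem hP2 (mul_mem hb hb')),
      a * b' + b * a', add_mem (mul_mem ha hb') (mul_mem hb ha'), ?_⟩
    have h3 : a * (P * b') = P * (a * b') := by rw [← mul_assoc, h1, mul_assoc]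
    have h4 : P * b * (P * b') = P * P * (b * b') := by
      rw [mul_assoc, ← mul_assoc b, h2, mul_assoc P b b', ← mul_assoc P P]
    rw [add_mul, mul_add, mul_add, h3, h4, mul_add, mul_assoc P b a']
    abel

namespace Dat

variable (h : Dat ω P t)
include h

lemma F_sym {a : Module.End ℚ V} (ha : a ∈ Algebra.adjoin ℚ {P * P}) : Sym ω a := by
  induction ha using Algebra.adjoin_induction with
  | mem x hx =>
    rw [Set.mem_singleton_iff] at hx
    subst hx
    intro u v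
    have h1 := h.skew (P u) v
    have h2 := h.skew u (P v)
    rw [Module.End.mul_apply, Module.End.mul_apply]
    linear_combination h1 - h2
  | algebraMap r =>
    intro u v
    rw [Module.algebraMap_end_apply, Module.algebraMap_end_apply, map_smul, map_smul,
      LinearMap.smul_apply]
  | add x y _ _ hx hy =>
    intro u v
    rw [LinearMap.add_apply, LinearMap.add_apply, map_add, map_add, LinearMap.add_apply, hx, hy]
  | mul x y hx' hy' hx hy =>
    intro u v
    have h1 := comm_in hx' hy'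
    rw [Module.End.mul_apply, hx, hy, ← Module.End.mul_apply, ← h1]

lemma skew_mul {a Z : Module.End ℚ V} (ha : a ∈ Algebra.adjoin ℚ {P * P}) (hZ : Z * P = P * Z)
    (hs : Skw ω Z) : Skw ω (a * Z) := by
  intro u v
  have h1 : a * Z = Z * a := (comm_adj hZ (F_le ha)).symm
  have h2 : (a * Z) v = Z (a v) := by rw [h1, Module.End.mul_apply]
  rw [h2, Module.End.mul_apply, h.F_sym ha]
  exact hs u (a v)

lemma zero_of_sym_skew {Z : Module.End ℚ V} (h1 : Sym ω Z) (h2 : Skw ω Z) : Z = 0 := by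
  refine LinearMap.ext fun u => ?_
  apply h.nondeg
  intro v
  have h3 := h2 u v
  rw [← h1 u v] at h3
  exact add_self_eq_zero.1 h3

lemma F_of_sym {Q : Module.End ℚ V} (hQ : Q ∈ Algebra.adjoin ℚ {P}) (hs : Sym ω Q) :
    Q ∈ Algebra.adjoin ℚ {P * P} := by
  obtain ⟨a, ha, b, hb, rfl⟩ := E_dec hQ
  have h1 : Skw ω (b * P) := h.skew_mul hb rfl h.skew
  have h2 : b * P = P * b := (comm_adj rfl (F_le hb)).symm
  rw [h2] at h1
  have h3 : P * b = 0 := by
    refine h.zero_of_sym_skew (fun u v => ?_) h1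
    have h4 := hs u v
    have h5 := h.F_sym ha u v
    rw [LinearMap.add_apply, LinearMap.add_apply, map_add, map_add, LinearMap.add_apply] at h4
    linear_combination h4 - h5
  rw [h3, add_zero]
  exact ha

lemma exists_inv [Nontrivial V] {a : Module.End ℚ V} (ha : a ∈ Algebra.adjoin ℚ {P * P})
    (h0 : a ≠ 0) : ∃ b ∈ Algebra.adjoin ℚ {P * P}, a * b = 1 := by
  have h1 := isField_adjoin (P := P * P) fun Q hQ hQ0 => h.inj Q (F_le hQ) hQ0
  obtain ⟨b, hb⟩ := h1.mul_inv_cancel (a := ⟨a, ha⟩) (fun h2 => h0 (congrArg Subtype.val h2))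
  exact ⟨b.1, b.2, congrArg Subtype.val hb⟩

end Dat

/-- the skew-symmetric endomorphisms of trace zero -/
structure T0 (ω : V →ₗ[ℚ] V →ₗ[ℚ] ℚ) (P : Module.End ℚ V)
    (t : Module.End ℚ V → Module.End ℚ V) (Z : Module.End ℚ V) : Prop where
  cm : Z * P = P * Z
  sk : Skw ω Z
  tr : t Z = 0

lemma Skw.add {Z Z' : Module.End ℚ V} (h : Skw ω Z) (h' : Skw ω Z') : Skw ω (Z + Z') := by
  intro u v
  have h1 := h u v
  have h2 := h' u v
  rw [LinearMap.add_apply, LinearMap.add_apply, map_add, map_add, LinearMap.add_apply]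
  linear_combination h1 + h2

lemma Skw.smul {Z : Module.End ℚ V} (h : Skw ω Z) (c : ℚ) : Skw ω (c • Z) := by
  intro u v
  have h1 := h u v
  rw [LinearMap.smul_apply, LinearMap.smul_apply, map_smul, map_smul, LinearMap.smul_apply,
    ← smul_add, h1, smul_zero]

lemma Skw.bracket {Z Z' : Module.End ℚ V} (h : Skw ω Z) (h' : Skw ω Z') :
    Skw ω (Z * Z' - Z' * Z) := by
  intro u v
  have h1 := h (Z' u) v
  have h2 := h' u (Z v)
  have h3 := h' (Z u) v
  have h4 := h u (Z' v)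
  simp only [LinearMap.sub_apply, Module.End.mul_apply, map_sub]
  linear_combination h1 - h2 - h3 + h4

lemma Skw.sq_sym {Z : Module.End ℚ V} (h : Skw ω Z) : Sym ω (Z * Z) := by
  intro u v
  have h1 := h (Z u) v
  have h2 := h u (Z v)
  rw [Module.End.mul_apply, Module.End.mul_apply]
  linear_combination h1 - h2

namespace Dat

variable (h : Dat ω P t)
include h

lemma t0_add {X Y : Module.End ℚ V} (hX : T0 ω P t X) (hY : T0 ω P t Y) : T0 ω P t (X + Y) :=
  ⟨by rw [add_mul, mul_add, hX.cm, hY.cm], hX.sk.add hY.sk, by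
    rw [h.add _ _ hX.cm hY.cm, hX.tr, hY.tr, add_zero]⟩

lemma t0_smul {X : Module.End ℚ V} (hX : T0 ω P t X) (c : ℚ) : T0 ω P t (c • X) :=
  ⟨by rw [smul_mul_assoc, mul_smul_comm, hX.cm], hX.sk.smul c, by
    rw [h.smul _ _ hX.cm, hX.tr, smul_zero]⟩

lemma t0_fmul {a X : Module.End ℚ V} (ha : a ∈ Algebra.adjoin ℚ {P * P}) (hX : T0 ω P t X) :
    T0 ω P t (a * X) := by
  have h1 : a * P = P * a := (comm_adj rfl (F_le ha)).symm
  exact ⟨by rw [mul_assoc, hX.cm, ← mul_assoc, h1, mul_assoc], h.skew_mul ha hX.cm hX.sk, by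
    rw [h.mulE a (F_le ha) X hX.cm, hX.tr, mul_zero]⟩

lemma t0_bracket {X Y : Module.End ℚ V} (hX : X * P = P * X) (hY : Y * P = P * Y)
    (hXs : Skw ω X) (hYs : Skw ω Y) : T0 ω P t (X * Y - Y * X) := by
  have c1 : X * Y * P = P * (X * Y) := by rw [mul_assoc, hY, ← mul_assoc, hX, mul_assoc]
  have c2 : Y * X * P = P * (Y * X) := by rw [mul_assoc, hX, ← mul_assoc, hY, mul_assoc]
  have c3 : ((-1 : ℚ) • (Y * X)) * P = P * ((-1 : ℚ) • (Y * X)) := by
    rw [smul_mul_assoc, mul_smul_comm, c2]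
  have h1 : X * Y - Y * X = X * Y + (-1 : ℚ) • (Y * X) := by
    rw [neg_one_smul, sub_eq_add_neg]
  refine ⟨by rw [sub_mul, mul_sub, c1, c2], hXs.bracket hYs, ?_⟩
  rw [h1, h.add _ _ c1 c3, h.smul _ _ c2, h.comm X Y hX hY, neg_one_smul, add_neg_cancel]

lemma t0_sq {X : Module.End ℚ V} (hX : T0 ω P t X) : X * X ∈ Algebra.adjoin ℚ {P * P} := by
  have h1 := h.ch X hX.cm
  rw [hX.tr, zero_mul, sub_zero] at h1
  exact h.F_of_sym h1 hX.sk.sq_sym

lemma t0_anti {X Y : Module.End ℚ V} (hX : T0 ω P t X) (hY : T0 ω P t Y) :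
    X * Y + Y * X ∈ Algebra.adjoin ℚ {P * P} := by
  have h1 := h.t0_sq (h.t0_add hX hY)
  have h2 := sub_mem (sub_mem h1 (h.t0_sq hX)) (h.t0_sq hY)
  have h3 : (X + Y) * (X + Y) - X * X - Y * Y = X * Y + Y * X := by noncomm_ring
  rwa [h3] at h2

lemma t0_not_E [Nontrivial V] {X : Module.End ℚ V} (hX : T0 ω P t X)
    (hE : X ∈ Algebra.adjoin ℚ {P}) : X = 0 := by
  have h1 := h.two X hE
  rw [hX.tr] at h1
  have h2 : (2 : ℚ) • X = 0 := by rw [two_smul, ← h1]
  exact (smul_eq_zero.1 h2).resolve_left (by norm_num)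

lemma neg_skew {Z : Module.End ℚ V} (hZ : Skw ω Z) : Skw ω (-Z) := by
  rw [← neg_one_smul ℚ Z]
  exact hZ.smul _

/-- the decomposition -/
lemma dec [Nontrivial V] {Z : Module.End ℚ V} (hZ : Z * P = P * Z) (hZs : Skw ω Z) :
    Skw ω (t Z) ∧ T0 ω P t (Z - (1 / 2 : ℚ) • t Z) := by
  set c := (1 / 2 : ℚ) • t Z with hc
  have hcE : c ∈ Algebra.adjoin ℚ {P} := Subalgebra.smul_mem _ (h.mem Z hZ) _
  have hcP : c * P = P * c := (comm_adj rfl hcE).symm
  have hZc : Z * c = c * Z := comm_adj hZ hcE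
  have htZ : t Z = c + c := by
    rw [hc, ← add_smul]
    norm_num
  -- the trace of the difference
  have hcm : (Z - c) * P = P * (Z - c) := by rw [sub_mul, mul_sub, hZ, hcP]
  have htr : t (Z - c) = 0 := by
    have h1 : Z - c = Z + (-1 : ℚ) • c := by rw [neg_one_smul, sub_eq_add_neg]
    have h2 : ((-1 : ℚ) • c) * P = P * ((-1 : ℚ) • c) := by
      rw [smul_mul_assoc, mul_smul_comm, hcP]
    rw [h1, h.add _ _ hZ h2, h.smul _ _ hcP, h.two c hcE, htZ, neg_one_smul, add_neg_cancel]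
  have hsq : (Z - c) * (Z - c) ∈ Algebra.adjoin ℚ {P} := by
    have h1 := h.ch _ hcm
    rwa [htr, zero_mul, sub_zero] at h1
  obtain ⟨a, ha, b, hb, hab⟩ := E_dec hcE
  obtain ⟨a', ha', b', hb', hab'⟩ := E_dec hsq
  have hbs : Skw ω (P * b) := by
    rw [← (comm_adj rfl (F_le hb) : P * b = b * P).symm]
    exact h.skew_mul hb rfl h.skew
  have hbs' : Skw ω (P * b') := by
    rw [← (comm_adj rfl (F_le hb') : P * b' = b' * P).symm]
    exact h.skew_mul hb' rfl h.skew
  have has := h.F_sym ha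
  have has' := h.F_sym ha'
  -- the adjoint of the difference
  have hadj : ∀ u v, ω ((Z - c) u) v = -ω u ((Z - c + (2 : ℚ) • a) v) := by
    intro u v
    have h1 := hZs u v
    have h2 := hbs u v
    have h3 := has u v
    rw [hab]
    simp only [LinearMap.sub_apply, LinearMap.add_apply, LinearMap.smul_apply, map_sub, map_add,
      map_smul, smul_eq_mul]
    linear_combination h1 - h2 - h3
  have hadj' : ∀ u v, ω (((Z - c) * (Z - c)) u) v =
      ω u (((Z - c + (2 : ℚ) • a) * (Z - c + (2 : ℚ) • a)) v) := by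
    intro u v
    rw [Module.End.mul_apply, hadj, hadj, neg_neg, Module.End.mul_apply]
  have hZa : Z * a = a * Z := comm_adj hZ (F_le ha)
  have hca : c * a = a * c := comm_in hcE (F_le ha)
  have hkey : (4 : ℚ) • (a * (Z - c)) + (4 : ℚ) • (a * a) = -((2 : ℚ) • (P * b')) := by
    refine LinearMap.ext fun v => ?_
    rw [← sub_eq_zero]
    apply h.nondeg
    intro u
    rw [h.anti, neg_eq_zero]
    have h1 := hadj' u v
    have h2 : (Z - c + (2 : ℚ) • a) * (Z - c + (2 : ℚ) • a) =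
        (Z - c) * (Z - c) + ((4 : ℚ) • (a * (Z - c)) + (4 : ℚ) • (a * a)) := by
      have h3 : (Z - c) * a = a * (Z - c) := by rw [sub_mul, mul_sub, hZa, hca]
      rw [add_mul, mul_add, mul_add, mul_smul_comm, smul_mul_assoc, smul_mul_assoc,
        mul_smul_comm, h3, smul_smul]
      have h4 : (4 : ℚ) • (a * (Z - c)) = (2 : ℚ) • (a * (Z - c)) + (2 : ℚ) • (a * (Z - c)) := by
        rw [← add_smul]
        norm_num
      rw [h4]
      norm_num
      abel
    rw [h2, hab'] at h1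
    have h5 := hbs' u v
    have h6 := has' u v
    simp only [LinearMap.sub_apply, LinearMap.add_apply, LinearMap.smul_apply, map_sub, map_add,
      map_smul, smul_eq_mul, LinearMap.neg_apply, map_neg] at h1 ⊢
    linear_combination -h1 + h5 + h6
  have ha0 : a = 0 := by
    by_contra hne
    have h1 : a * (Z - c) ∈ Algebra.adjoin ℚ {P} := by
      have h2 : (4 : ℚ) • (a * (Z - c)) ∈ Algebra.adjoin ℚ {P} := by
        have h3 : (4 : ℚ) • (a * (Z - c)) = -((2 : ℚ) • (P * b')) - (4 : ℚ) • (a * a) := by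
          rw [← hkey]
          abel
        rw [h3]
        exact sub_mem (neg_mem (Subalgebra.smul_mem _ (mul_mem P_mem (F_le hb')) _))
          (Subalgebra.smul_mem _ (mul_mem (F_le ha) (F_le ha)) _)
      have h3 := Subalgebra.smul_mem _ h2 (1 / 4 : ℚ)
      rwa [smul_smul, show (1 / 4 : ℚ) * 4 = 1 by norm_num, one_smul] at h3
    have h2 := h.two _ h1
    rw [h.mulE a (F_le ha) _ hcm, htr, mul_zero] at h2
    have h3 : (2 : ℚ) • (a * (Z - c)) = 0 := by rw [two_smul, ← h2]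
    have h4 := (smul_eq_zero.1 h3).resolve_left (by norm_num)
    have h5 : Z - c = 0 := by
      refine LinearMap.ext fun v => ?_
      apply h.inj a (F_le ha) hne
      rw [← Module.End.mul_apply, h4, LinearMap.zero_apply, map_zero]
    have h6 : Z = c := sub_eq_zero.1 h5
    apply hne
    refine h.zero_of_sym_skew has fun u v => ?_
    have h7 := hZs u v
    have h8 := hbs u v
    rw [h6, hab] at h7
    simp only [LinearMap.add_apply, map_add] at h7
    linear_combination h7 - h8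
  have hcs : Skw ω c := by
    rw [hab, ha0, zero_add]
    exact hbs
  refine ⟨by rw [htZ]; exact hcs.add hcs, hcm, ?_, htr⟩
  rw [sub_eq_add_neg]
  exact hZs.add (h.neg_skew hcs)

end Dat

/-- the data of two anticommuting elements -/
structure Fr (ω : V →ₗ[ℚ] V →ₗ[ℚ] ℚ) (P : Module.End ℚ V)
    (t : Module.End ℚ V → Module.End ℚ V) (x y : Module.End ℚ V) : Prop where
  hx : T0 ω P t x
  hy : T0 ω P t y
  ac : x * y = -(y * x)
  x2 : x * x ≠ 0
  y2 : y * y ≠ 0

namespace Dat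

variable (h : Dat ω P t)
include h

lemma sq_comm {X Y : Module.End ℚ V} (hX : T0 ω P t X) (hY : Y * P = P * Y) :
    X * X * Y = Y * (X * X) := (comm_adj hY (F_le (h.t0_sq hX))).symm

lemma t0_xy {x y : Module.End ℚ V} (hf : Fr ω P t x y) : T0 ω P t (x * y) := by
  have h1 := h.t0_smul (h.t0_bracket hf.hx.cm hf.hy.cm hf.hx.sk hf.hy.sk) (1 / 2 : ℚ)
  have h2 : (1 / 2 : ℚ) • (x * y - y * x) = x * y := by
    have h3 : y * x = -(x * y) := by rw [hf.ac, neg_neg]
    rw [h3, sub_neg_eq_add, ← two_smul ℚ, smul_smul]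
    norm_num
  rwa [h2] at h1

lemma xy_sq {x y : Module.End ℚ V} (hf : Fr ω P t x y) :
    x * y * (x * y) = -(x * x * (y * y)) := by
  have h3 : y * x = -(x * y) := by rw [hf.ac, neg_neg]
  calc x * y * (x * y) = x * (y * x) * y := by noncomm_ring
    _ = -(x * x * (y * y)) := by rw [h3]; noncomm_ring

/-- an element is zero if its product with an element of nonzero square is zero -/
lemma zero_of_mul_sq [Nontrivial V] {X Z : Module.End ℚ V} (hX : T0 ω P t X) (h2 : X * X ≠ 0)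
    (h0 : Z * X = 0) : Z = 0 := by
  obtain ⟨b, -, hb⟩ := h.exists_inv (h.t0_sq hX) h2
  calc Z = Z * (X * X * b) := by rw [hb, mul_one]
    _ = Z * X * (X * b) := by noncomm_ring
    _ = 0 := by rw [h0, zero_mul]

/-- **The frame.** -/
lemma frame [Nontrivial V] {x y : Module.End ℚ V} (hf : Fr ω P t x y) {Z : Module.End ℚ V}
    (hZ : T0 ω P t Z) : ∃ a ∈ Algebra.adjoin ℚ {P * P}, ∃ b ∈ Algebra.adjoin ℚ {P * P},
      ∃ c ∈ Algebra.adjoin ℚ {P * P}, Z = a * x + b * y + c * (x * y) := by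
  have hxy := h.t0_xy hf
  have hyx : y * x = -(x * y) := by rw [hf.ac, neg_neg]
  have hsq := h.xy_sq hf
  have hxy2 : x * y * (x * y) ≠ 0 := by
    intro h0
    rw [hsq, neg_eq_zero] at h0
    apply hf.x2
    have h1 : x * x * y = 0 := h.zero_of_mul_sq hf.hy hf.y2 (by rw [mul_assoc]; exact h0)
    exact h.zero_of_mul_sq hf.hy hf.y2 h1
  obtain ⟨u, hu, hux⟩ := h.exists_inv (h.t0_sq hf.hx) hf.x2
  obtain ⟨v, hv, hvy⟩ := h.exists_inv (h.t0_sq hf.hy) hf.y2
  obtain ⟨w, hw, hwxy⟩ := h.exists_inv (h.t0_sq hxy) hxy2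
  have A1 := h.t0_anti hZ hf.hx
  have A2 := h.t0_anti hZ hf.hy
  have A3 := h.t0_anti hZ hxy
  have hcen : ∀ a ∈ Algebra.adjoin ℚ {P * P}, ∀ X, X * P = P * X → a * X = X * a :=
    fun a ha X hX => (comm_adj hX (F_le ha)).symm
  -- a multiple of the first
  have key : ∀ (X : Module.End ℚ V) (hX : T0 ω P t X) (q : Module.End ℚ V)
      (hq : q ∈ Algebra.adjoin ℚ {P * P}) (hXq : X * X * q = 1) (s : Module.End ℚ V)
      (hs : s ∈ Algebra.adjoin ℚ {P * P}),
      ((1 / 2 : ℚ) • (q * s)) * X * X + X * (((1 / 2 : ℚ) • (q * s)) * X) = s := by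
    intro X hX q hq hXq s hs
    have h1 : ((1 / 2 : ℚ) • (q * s)) * X = X * ((1 / 2 : ℚ) • (q * s)) :=
      hcen _ (Subalgebra.smul_mem _ (mul_mem hq hs) _) X hX.cm
    have h2 : X * X * ((1 / 2 : ℚ) • (q * s)) = (1 / 2 : ℚ) • s := by
      rw [mul_smul_comm, ← mul_assoc, hXq, one_mul]
    calc _ = X * X * ((1 / 2 : ℚ) • (q * s)) + X * X * ((1 / 2 : ℚ) • (q * s)) := by
          rw [h1, ← h1]
          congr 1
          · rw [h1, mul_assoc, h1, ← mul_assoc]
          · rw [h1, ← mul_assoc]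
      _ = s := by
          rw [h2, ← add_smul]
          norm_num
  -- anticommuting elements
  have key2 : ∀ (X Y : Module.End ℚ V) (_hY : Y * P = P * Y) (a : Module.End ℚ V)
      (_ : a ∈ Algebra.adjoin ℚ {P * P}), X * Y = -(Y * X) → a * X * Y + Y * (a * X) = 0 := by
    intro X Y hY a ha hXY
    have h1 := hcen a ha Y hY
    calc a * X * Y + Y * (a * X) = a * (X * Y) + (Y * a) * X := by noncomm_ring
      _ = 0 := by rw [← h1, hXY]; noncomm_ring
  have ax : x * (x * y) = -(x * y * x) := by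
    rw [mul_assoc x y x, hyx]
    noncomm_ring
  have ay : y * (x * y) = -(x * y * y) := by
    rw [← mul_assoc, hyx]
    noncomm_ring
  set a := (1 / 2 : ℚ) • (u * (Z * x + x * Z)) with ha
  set b := (1 / 2 : ℚ) • (v * (Z * y + y * Z)) with hb
  set c := (1 / 2 : ℚ) • (w * (Z * (x * y) + x * y * Z)) with hc
  have haF : a ∈ Algebra.adjoin ℚ {P * P} := Subalgebra.smul_mem _ (mul_mem hu A1) _
  have hbF : b ∈ Algebra.adjoin ℚ {P * P} := Subalgebra.smul_mem _ (mul_mem hv A2) _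
  have hcF : c ∈ Algebra.adjoin ℚ {P * P} := Subalgebra.smul_mem _ (mul_mem hw A3) _
  have k1 := key x hf.hx u hu hux _ A1
  have k2 := key y hf.hy v hv hvy _ A2
  have k3 := key (x * y) hxy w hw hwxy _ A3
  rw [← ha] at k1
  rw [← hb] at k2
  rw [← hc] at k3
  have m1 := key2 y x hf.hx.cm b hbF hyx
  have m2 := key2 (x * y) x hf.hx.cm c hcF (by rw [ax, neg_neg])
  have m3 := key2 x y hf.hy.cm a haF hf.ac
  have m4 := key2 (x * y) y hf.hy.cm c hcF (by rw [ay, neg_neg])
  have m5 := key2 x (x * y) hxy.cm a haF ax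
  have m6 := key2 y (x * y) hxy.cm b hbF ay
  set Z' := Z - (a * x + b * y + c * (x * y)) with hZ'
  have e1 : Z' * x + x * Z' = 0 := by
    have : Z' * x + x * Z' = (Z * x + x * Z) - (a * x * x + x * (a * x)) -
        (b * y * x + x * (b * y)) - (c * (x * y) * x + x * (c * (x * y))) := by
      rw [hZ']
      noncomm_ring
    rw [this, k1, m1, m2]
    abel
  have e2 : Z' * y + y * Z' = 0 := by
    have : Z' * y + y * Z' = (Z * y + y * Z) - (a * x * y + y * (a * x)) -
        (b * y * y + y * (b * y)) - (c * (x * y) * y + y * (c * (x * y))) := by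
      rw [hZ']
      noncomm_ring
    rw [this, k2, m3, m4]
    abel
  have e3 : Z' * (x * y) + x * y * Z' = 0 := by
    have : Z' * (x * y) + x * y * Z' = (Z * (x * y) + x * y * Z) -
        (a * x * (x * y) + x * y * (a * x)) -
        (b * y * (x * y) + x * y * (b * y)) - (c * (x * y) * (x * y) + x * y * (c * (x * y))) := by
      rw [hZ']
      noncomm_ring
    rw [this, k3, m5, m6]
    abel
  have e4 : Z' * (x * y) - x * y * Z' = 0 := by
    have : Z' * (x * y) - x * y * Z' = (Z' * x + x * Z') * y - x * (Z' * y + y * Z') := by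
      noncomm_ring
    rw [this, e1, e2, zero_mul, mul_zero, sub_zero]
  have e5 : Z' * (x * y) = 0 := by
    have h1 : (2 : ℚ) • (Z' * (x * y)) = 0 := by
      rw [two_smul]
      calc Z' * (x * y) + Z' * (x * y) = (Z' * (x * y) + x * y * Z') +
            (Z' * (x * y) - x * y * Z') := by abel
        _ = 0 := by rw [e3, e4, add_zero]
    exact (smul_eq_zero.1 h1).resolve_left (by norm_num)
  have e6 := h.zero_of_mul_sq hxy hxy2 e5
  exact ⟨a, haF, b, hbF, c, hcF, sub_eq_zero.1 e6⟩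

/-- **The Lie algebra contains all skew-symmetric endomorphisms of trace zero.** -/
theorem all_mem [Nontrivial V] {𝔥 : Submodule ℚ (Module.End ℚ V)}
    (hbr : ∀ X ∈ 𝔥, ∀ Y ∈ 𝔥, X * Y - Y * X ∈ 𝔥) {x y : Module.End ℚ V} (hf : Fr ω P t x y)
    (hx : x ∈ 𝔥) (hy : y ∈ 𝔥) (hgen : P * P ∈ Algebra.adjoin ℚ {x * x}) {Z : Module.End ℚ V}
    (hZ : T0 ω P t Z) : Z ∈ 𝔥 := by
  have hyx : y * x = -(x * y) := by rw [hf.ac, neg_neg]
  have hcen : ∀ a ∈ Algebra.adjoin ℚ {P * P}, ∀ X, X * P = P * X → a * X = X * a :=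
    fun a ha X hX => (comm_adj hX (F_le ha)).symm
  -- step 1
  have s0 : ∀ W, W ∈ 𝔥 → x * W = -(W * x) → x * x * W ∈ 𝔥 := by
    intro W hW hxW
    have h1 := hbr x hx _ (hbr x hx W hW)
    have hWx : W * x = -(x * W) := by rw [hxW, neg_neg]
    have h2 : x * (x * W - W * x) - (x * W - W * x) * x = (4 : ℚ) • (x * x * W) := by
      have h3 : x * (x * W - W * x) - (x * W - W * x) * x =
          x * x * W - x * (W * x) - x * (W * x) + (W * x) * x := by noncomm_ring
      rw [h3, hWx]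
      have h4 : (4 : ℚ) • (x * x * W) = x * x * W + x * x * W + x * x * W + x * x * W := by
        rw [show (4 : ℚ) = 1 + 1 + 1 + 1 by norm_num, add_smul, add_smul, add_smul, one_smul]
      rw [h4]
      have h5 : -(x * W) * x = x * x * W := by
        rw [neg_mul, mul_assoc, hWx]
        noncomm_ring
      rw [h5]
      noncomm_ring
    rw [h2] at h1
    have h3 := 𝔥.smul_mem (1 / 4 : ℚ) h1
    rwa [smul_smul, show (1 / 4 : ℚ) * 4 = 1 by norm_num, one_smul] at h3
  have s1 : ∀ f ∈ Algebra.adjoin ℚ {x * x}, ∀ W, W ∈ 𝔥 → x * W = -(W * x) → f * W ∈ 𝔥 := by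
    intro f hf'
    rw [Algebra.adjoin_singleton_eq_range_aeval] at hf'
    obtain ⟨p, rfl⟩ := hf'
    intro W hW hxW
    change aeval (x * x) p * W ∈ 𝔥
    have h1 : ∀ k : ℕ, (x * x) ^ k * W ∈ 𝔥 ∧ x * ((x * x) ^ k * W) = -((x * x) ^ k * W * x) := by
      intro k
      induction k with
      | zero =>
        rw [pow_zero, one_mul]
        exact ⟨hW, hxW⟩
      | succ k ih =>
        obtain ⟨i1, i2⟩ := ih
        rw [pow_succ', mul_assoc]
        refine ⟨s0 _ i1 i2, ?_⟩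
        calc x * (x * x * ((x * x) ^ k * W)) = x * x * (x * ((x * x) ^ k * W)) := by noncomm_ring
          _ = _ := by rw [i2]; noncomm_ring
    induction p using Polynomial.induction_on' with
    | add p q hp hq =>
      rw [map_add, add_mul]
      exact 𝔥.add_mem hp hq
    | monomial n a =>
      rw [aeval_monomial, ← Algebra.smul_def, smul_mul_assoc]
      exact 𝔥.smul_mem _ (h1 n).1
  have hFsub : ∀ f ∈ Algebra.adjoin ℚ {P * P}, f ∈ Algebra.adjoin ℚ {x * x} := by
    intro f hf'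
    refine (Algebra.adjoin_le ?_) hf'
    rintro z hz
    rw [Set.mem_singleton_iff] at hz
    rw [hz]
    exact hgen
  have s2 : ∀ f ∈ Algebra.adjoin ℚ {P * P}, f * y ∈ 𝔥 := fun f hf' =>
    s1 f (hFsub f hf') y hy hf.ac
  have s3 : ∀ f ∈ Algebra.adjoin ℚ {P * P}, f * (x * y) ∈ 𝔥 := by
    intro f hf'
    have h1 := hbr x hx _ (s2 f hf')
    have h2 := hcen f hf' x hf.hx.cm
    have h3 : x * (f * y) - f * y * x = (2 : ℚ) • (f * (x * y)) := by
      rw [← mul_assoc, ← h2, mul_assoc, mul_assoc f y x, hyx, mul_neg, sub_neg_eq_add, two_smul]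
    rw [h3] at h1
    have h4 := 𝔥.smul_mem (1 / 2 : ℚ) h1
    rwa [smul_smul, show (1 / 2 : ℚ) * 2 = 1 by norm_num, one_smul] at h4
  have s4 : ∀ f ∈ Algebra.adjoin ℚ {P * P}, f * x ∈ 𝔥 := by
    intro f hf'
    obtain ⟨v, hv, hvy⟩ := h.exists_inv (h.t0_sq hf.hy) hf.y2
    have hg : f * v ∈ Algebra.adjoin ℚ {P * P} := mul_mem hf' hv
    have h1 := hbr _ (s2 _ hg) _ (s3 1 (one_mem _))
    rw [one_mul] at h1
    have h2 := hcen _ hg (x * y) (h.t0_xy hf).cm
    have h3 := hcen _ hv x hf.hx.cm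
    have h4 : f * v * y * (x * y) - x * y * (f * v * y) = -((2 : ℚ) • (f * x)) := by
      have h5 : x * y * (f * v * y) = f * v * (x * y * y) := by
        rw [← mul_assoc, ← h2]
        noncomm_ring
      have h6 : f * v * (x * y * y) = f * x := by
        calc f * v * (x * y * y) = f * (v * x) * (y * y) := by noncomm_ring
          _ = f * x * (v * (y * y)) := by rw [h3]; noncomm_ring
          _ = f * x := by
            rw [← comm_in (h.t0_sq hf.hy) hv, hvy, mul_one]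
      have h7 : f * v * y * (x * y) = -(f * x) := by
        calc f * v * y * (x * y) = f * v * (y * x) * y := by noncomm_ring
          _ = -(f * v * (x * y * y)) := by rw [hyx]; noncomm_ring
          _ = -(f * x) := by rw [h6]
      rw [h5, h6, h7, two_smul]
      abel
    rw [h4] at h1
    have h5 := 𝔥.smul_mem (-(1 / 2) : ℚ) h1
    rwa [smul_neg, neg_smul, neg_neg, smul_smul, show (1 / 2 : ℚ) * 2 = 1 by norm_num,
      one_smul] at h5
  obtain ⟨a, ha, b, hb, c, hc, rfl⟩ := h.frame hf hZ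
  exact 𝔥.add_mem (𝔥.add_mem (s4 a ha) (s2 b hb)) (s3 c hc)

/-- **The centre.** -/
theorem not_all_t0 [Nontrivial V] {𝔥 : Submodule ℚ (Module.End ℚ V)} (hP0 : P ≠ 0)
    (hP : P ∈ Algebra.adjoin ℚ (𝔥 : Set (Module.End ℚ V))) :
    ∃ X ∈ 𝔥, ¬ T0 ω P t X := by
  by_contra hcon
  push Not at hcon
  have hmul : ∀ a a' X X', a ∈ Algebra.adjoin ℚ {P * P} → a' ∈ Algebra.adjoin ℚ {P * P} →
      T0 ω P t X → T0 ω P t X' → ∃ b ∈ Algebra.adjoin ℚ {P * P}, ∃ Y, T0 ω P t Y ∧
        (a + X) * (a' + X') = b + Y := by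
    intro a a' X X' ha ha' hX hX'
    refine ⟨a * a' + (1 / 2 : ℚ) • (X * X' + X' * X),
      add_mem (mul_mem ha ha') (Subalgebra.smul_mem _ (h.t0_anti hX hX') _),
      a * X' + a' * X + (1 / 2 : ℚ) • (X * X' - X' * X),
      h.t0_add (h.t0_add (h.t0_fmul ha hX') (h.t0_fmul ha' hX))
        (h.t0_smul (h.t0_bracket hX.cm hX'.cm hX.sk hX'.sk) _), ?_⟩
    have h1 : X * a' = a' * X := comm_adj hX.cm (F_le ha')
    have h2 : X * X' = (1 / 2 : ℚ) • (X * X' + X' * X) + (1 / 2 : ℚ) • (X * X' - X' * X) := by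
      rw [← smul_add]
      have h3 : X * X' + X' * X + (X * X' - X' * X) = (2 : ℚ) • (X * X') := by
        rw [two_smul]
        abel
      rw [h3, smul_smul]
      norm_num
    calc (a + X) * (a' + X') = a * a' + a * X' + X * a' + X * X' := by noncomm_ring
      _ = _ := by
        rw [h1]
        conv_lhs => rw [h2]
        abel
  have h0 : T0 ω P t (0 : Module.End ℚ V) := by
    have h1 := hcon 0 𝔥.zero_mem
    exact h1
  have key : ∀ Q ∈ Algebra.adjoin ℚ (𝔥 : Set (Module.End ℚ V)),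
      ∃ a ∈ Algebra.adjoin ℚ {P * P}, ∃ X, T0 ω P t X ∧ Q = a + X := by
    intro Q hQ
    induction hQ using Algebra.adjoin_induction with
    | mem x hx => exact ⟨0, zero_mem _, x, hcon x hx, by rw [zero_add]⟩
    | algebraMap r => exact ⟨_, Subalgebra.algebraMap_mem _ r, 0, h0, by rw [add_zero]⟩
    | add x y _ _ hx hy =>
      obtain ⟨a, ha, X, hX, rfl⟩ := hx
      obtain ⟨b, hb, Y, hY, rfl⟩ := hy
      exact ⟨a + b, add_mem ha hb, X + Y, h.t0_add hX hY, by abel⟩
    | mul x y _ _ hx hy =>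
      obtain ⟨a, ha, X, hX, rfl⟩ := hx
      obtain ⟨b, hb, Y, hY, rfl⟩ := hy
      obtain ⟨c, hc, Z, hZ, h1⟩ := hmul a b X Y ha hb hX hY
      exact ⟨c, hc, Z, hZ, h1⟩
  obtain ⟨a, ha, X, hX, hPa⟩ := key P hP
  have h1 : X ∈ Algebra.adjoin ℚ {P} := by
    have h2 : X = P - a := by rw [hPa]; abel
    rw [h2]
    exact sub_mem P_mem (F_le ha)
  have h2 := h.t0_not_E hX h1
  rw [h2, add_zero] at hPa
  apply hP0
  refine h.zero_of_sym_skew ?_ h.skew
  have h3 := h.F_sym ha
  rwa [← hPa] at h3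

end Dat

end Pool.Agent.W5h86.RK
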