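import Pool.Agent.W5h86.RK.Co
import Pool.Agent.W5h86.LX.Fin4

set_option autoImplicit false

/-!
# The main theorem in rank two, for all signatures which are not induced
-/

open Module Polynomial Function

noncomputable section

namespace Pool.Agent.W5h86.RK

open Pool.Agent.Y102 Pool.Agent.W516.DR Pool.Agent.W516.KC Pool.Agent.W5h86.LZ
open Pool.Agent.W5h86.LY Pool.Agent.H204R3.GP

lemma kills_add' {V : Type} [AddCommGroup V] [Module ℚ V] {κ : Type} [Fintype κ] [DecidableEq κ]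
    {φ : MultilinearMap ℚ (fun _ : κ => V) ℚ} {Z Z' : Module.End ℚ V}
    (h : Pool.Agent.H204R3.SP.Kills Z φ) (h' : Pool.Agent.H204R3.SP.Kills Z' φ) :
    Pool.Agent.H204R3.SP.Kills (Z + Z') φ := by
  intro v
  have h1 := h v
  have h2 := h' v
  simp only [LinearMap.add_apply, MultilinearMap.map_update_add, Finset.sum_add_distrib]
  rw [h1, h2, add_zero]

variable {g : ℕ}

/-- **The main theorem.** -/
theorem main4 (A : AbVar g) {P : Module.End ℚ A.H1} (hP : P ∈ A.EA) (hPs : IsSkew A.om P)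
    (hEA : ∀ Q ∈ A.EA, Q ∈ Algebra.adjoin ℚ {P})
    (hsimple : ∀ Q ∈ A.EA, Q ≠ 0 → Function.Injective Q) (hTR : Pool.Agent.W5h86.LX.TR A P)
    (hdeg : (minpoly ℚ P).natDegree = g) {M : (Fin g → ℂ) →ₗ[ℂ] (Fin g → ℂ)}
    (hM : ∀ w, M (A.per w) = A.per (P w))
    (hdef : ∃ s : ℂ, aeval s (minpoly ℚ P) = 0 ∧ (LinearMap.ker (M - s • LinearMap.id) = ⊥ ∨
      LinearMap.ker (M - (-s) • LinearMap.id) = ⊥))
    (hN : ∀ f : ℚ[X], (∀ s s' : ℂ, aeval s (minpoly ℚ P) = 0 → aeval s' (minpoly ℚ P) = 0 →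
      aeval (s ^ 2) f = aeval (s' ^ 2) f →
      (LinearMap.ker (M - s • LinearMap.id) = ⊥ ∨ LinearMap.ker (M - (-s) • LinearMap.id) = ⊥) →
      (LinearMap.ker (M - s' • LinearMap.id) = ⊥ ∨
        LinearMap.ker (M - (-s') • LinearMap.id) = ⊥)) →
      ∀ s s' : ℂ, aeval s (minpoly ℚ P) = 0 → aeval s' (minpoly ℚ P) = 0 →
      aeval (s ^ 2) f = aeval (s' ^ 2) f → s ^ 2 = s' ^ 2) {m : ℕ}
    {φ : MultilinearMap ℚ (fun _ : Fin m × Fin 2 => A.H1) ℚ}
    (hφ : IsDeRhamBettiForm QBar A.dR tau m φ) {Z : Module.End ℚ A.H1} (hZ1 : IsSkew A.om Z)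
    (hZ2 : Z * P = P * Z) : Pool.Agent.H204R3.SP.Kills Z φ := by
  obtain ⟨t, D, hall, X0, hX0, hX0E, hX0n⟩ := core A hP hPs hEA hsimple hdeg hM hdef hN
  have hnt : Nontrivial A.H1 := by
    by_contra hcon
    rw [not_nontrivial_iff_subsingleton] at hcon
    exact hX0n (LinearMap.ext fun v => Subsingleton.elim _ _)
  obtain ⟨h1, h2⟩ := D.dec hZ2 hZ1
  have hcE : (1 / 2 : ℚ) • t Z ∈ A.EA := by
    refine A.EA.smul_mem _ ?_
    have h3 := D.mem Z hZ2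
    rw [Algebra.adjoin_singleton_eq_range_aeval] at h3
    obtain ⟨p, hp⟩ := h3
    rw [← hp]
    exact A.aeval_mem hP p
  have hc : Pool.Agent.H204R3.SP.Kills ((1 / 2 : ℚ) • t Z) φ :=
    Pool.Agent.W5h86.LX.kills_EA A hP hPs hEA hTR hX0 hX0E hX0n hcE (h1.smul _) hφ
  have h3 := kills_add' (A.kills_of_mem hφ (hall _ h2)) hc
  rwa [sub_add_cancel] at h3

end Pool.Agent.W5h86.RK
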