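import Pool.Agent.W5h86.RK.Gen
import Pool.Agent.W5h86.RK.Alg
import Pool.Agent.W5h86.LY.Rat

set_option autoImplicit false

/-!
# The places
-/

open Module Polynomial

noncomputable section

namespace Pool.Agent.W5h86.RK

open Pool.Agent.Y102 Pool.Agent.W516.DR Pool.Agent.W516.KC Pool.Agent.W5h86.LZ
open Pool.Agent.W5h86.LY

variable {g : ℕ} {A : AbVar g} {P : Module.End ℚ A.H1} {M : (Fin g → ℂ) →ₗ[ℂ] (Fin g → ℂ)}

/-- the real extension of a skew-symmetric endomorphism -/
lemma ext_skew {Z : Module.End ℚ A.H1} (hZ : IsSkew A.om Z) (u v : Fin g → ℂ) :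
    A.E (A.ext Z u) v = -A.E u (A.ext Z v) := by
  have h2 : A.E.comp (A.ext Z) = -(A.E.flip.comp (A.ext Z)).flip := by
    refine A.ext_per fun u => A.ext_per fun v => ?_
    change A.E (A.ext Z (A.per u)) (A.per v) = -A.E (A.per u) (A.ext Z (A.per v))
    rw [AbVar.ext_apply, AbVar.ext_apply, ← AbVar.om_coe, ← AbVar.om_coe, ← Rat.cast_neg]
    congr 1
    linear_combination hZ u v
  exact congrArg (fun F : (Fin g → ℂ) →ₗ[ℝ] (Fin g → ℂ) →ₗ[ℝ] ℝ => F u v) h2

/-- commuting endomorphisms -/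
lemma ext_comm {Z Z' : Module.End ℚ A.H1} (h : Z * Z' = Z' * Z) (v : Fin g → ℂ) :
    A.ext Z (A.ext Z' v) = A.ext Z' (A.ext Z v) := by
  have h1 : A.ext (Z * Z') = A.ext (Z' * Z) := by rw [h]
  rw [AbVar.ext_mul, AbVar.ext_mul] at h1
  exact LinearMap.congr_fun h1 v

/-- polynomials on eigenvectors -/
lemma ext_aeval_eig {B : Module.End ℚ A.H1} {ρ : ℝ} {v : Fin g → ℂ} (hv : A.ext B v = ρ • v)
    (f : ℚ[X]) : A.ext (aeval B f) v = (aeval ρ f) • v := by
  have h2 : ∀ q : ℝ[X], aeval (extA A B) q v = (q.eval ρ) • v := by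
    intro q
    induction q using Polynomial.induction_on' with
    | add p q hp hq => rw [map_add, LinearMap.add_apply, hp, hq, eval_add, add_smul]
    | monomial n a =>
      rw [aeval_monomial, eval_monomial, Module.End.mul_apply, Module.algebraMap_end_apply]
      have h3 : (extA A B ^ n) v = (ρ ^ n) • v := by
        induction n with
        | zero => rw [pow_zero, pow_zero, one_smul, Module.End.one_apply]
        | succ n ih =>
          rw [pow_succ', Module.End.mul_apply, ih, map_smul, extA_apply, hv, smul_smul, pow_succ]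
      rw [h3, smul_smul]
  rw [ext_aeval, h2, eval_map_algebraMap]

/-- **An endomorphism which is zero at one place is zero.** -/
lemma zero_of_place {B : Module.End ℚ A.H1} (hirr : Irreducible (minpoly ℚ B)) {ρ : ℝ}
    (hρ : aeval ρ (minpoly ℚ B) = 0) {Z : Module.End ℚ A.H1} (hZ : B * Z = Z * B)
    (h0 : ∀ v, A.ext B v = ρ • v → A.ext Z v = 0) : Z = 0 := by
  have hint : IsIntegral ℚ B := Algebra.IsIntegral.isIntegral B
  have hρi : IsIntegral ℚ ρ := ⟨minpoly ℚ B, minpoly.monic hint, hρ⟩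
  have hm : minpoly ℚ B = minpoly ℚ ρ :=
    minpoly.eq_of_irreducible_of_monic hirr hρ (minpoly.monic hint)
  have hB0 : aeval B (minpoly ℚ ρ) = 0 := by rw [← hm, minpoly.aeval]
  obtain ⟨f, hf⟩ := exists_f hρi
  refine LinearMap.ext fun w => ?_
  have hcomm : YY A ρ B Z = extA A Z * YY A ρ B 1 := by
    rw [YY_eq hρi, YY_eq hρi, map_one, mul_one]
    have h2 : Commute (extA A Z) (extA A B) := by
      change extA A Z * extA A B = extA A B * extA A Z
      rw [← map_mul, ← hZ, map_mul]
    have h4 : aeval (extA A B) (minpolyDiv ℚ ρ) ∈ Algebra.adjoin ℝ {extA A B} :=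
      aeval_mem_adjoin_singleton ℝ (extA A B)
    have h5 : Algebra.adjoin ℝ {extA A B} ≤ Subalgebra.centralizer ℝ {extA A Z} := by
      apply Algebra.adjoin_le
      intro x hx
      rw [Set.mem_singleton_iff] at hx
      rw [SetLike.mem_coe, Subalgebra.mem_centralizer_iff]
      intro y hy
      rw [Set.mem_singleton_iff] at hy
      rw [hx, hy]
      exact h2
    exact (Subalgebra.mem_centralizer_iff ℝ |>.1 (h5 h4) (extA A Z) rfl).symm
  have h1 : YY A ρ B Z (A.per w) = 0 := by
    rw [hcomm, Module.End.mul_apply]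
    exact h0 _ (YY_root hρi 1 hB0 _)
  have h3 : YY A ρ B Z (A.per w) = ∑ i ∈ Finset.range (minpoly ℚ ρ).natDegree,
      (minpolyDiv ℚ ρ).coeff i • A.per ((B ^ i * Z) w) := by
    unfold YY
    rw [LinearMap.sum_apply]
    refine Finset.sum_congr rfl fun i _ => ?_
    rw [LinearMap.smul_apply, AbVar.ext_apply]
  rw [h1] at h3
  have h6 := congrArg (A.cmp f) h3
  rw [map_zero, map_sum] at h6
  have h7 : ∀ i ∈ Finset.range (minpoly ℚ ρ).natDegree,
      A.cmp f ((minpolyDiv ℚ ρ).coeff i • A.per ((B ^ i * Z) w)) =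
      if i = 0 then (B ^ i * Z) w else 0 := by
    intro i hi
    rw [AbVar.cmp_smul_per, hf i (Finset.mem_range.1 hi)]
    by_cases h0 : i = 0
    · rw [if_pos h0, if_pos h0, one_smul]
    · rw [if_neg h0, if_neg h0, zero_smul]
  rw [Finset.sum_congr rfl h7, Finset.sum_ite_eq', if_pos (Finset.mem_range.2
    (minpoly.natDegree_pos hρi)), pow_zero, one_mul] at h6
  rw [LinearMap.zero_apply, ← h6]

/-- **The dimension of a place.** -/
lemma finrank_place [Nontrivial A.H1] {P : Module.End ℚ A.H1}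
    (hirr : Irreducible (minpoly ℚ (P * P))) {ρ : ℝ}
    (hρ : aeval ρ (minpoly ℚ (P * P)) = 0) {b0 b1 : A.H1}
    (hb : ∀ v, ∃ c0 ∈ Algebra.adjoin ℚ {P}, ∃ c1 ∈ Algebra.adjoin ℚ {P}, v = c0 b0 + c1 b1) :
    finrank ℝ (LinearMap.ker (A.ext (P * P) - ρ • LinearMap.id)) ≤ 4 := by
  classical
  set B := P * P with hB
  have hint : IsIntegral ℚ B := Algebra.IsIntegral.isIntegral B
  have hρi : IsIntegral ℚ ρ := ⟨minpoly ℚ B, minpoly.monic hint, hρ⟩
  have hm : minpoly ℚ B = minpoly ℚ ρ :=
    minpoly.eq_of_irreducible_of_monic hirr hρ (minpoly.monic hint)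
  have hB0 : aeval B (minpoly ℚ ρ) = 0 := by rw [← hm, minpoly.aeval]
  let π : (Fin g → ℂ) →ₗ[ℝ] (Fin g → ℂ) := YY A ρ B 1
  have hπB : ∀ v, A.ext B (π v) = ρ • π v := fun v => YY_root hρi 1 hB0 v
  have hπcomm : ∀ Z : Module.End ℚ A.H1, B * Z = Z * B → ∀ v, π (A.ext Z v) = A.ext Z (π v) := by
    intro Z hZ v
    have h2 : Commute (extA A Z) (extA A B) := by
      change extA A Z * extA A B = extA A B * extA A Z
      rw [← map_mul, ← hZ, map_mul]
    have h3 : YY A ρ B 1 * extA A Z = extA A Z * YY A ρ B 1 := by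
      rw [YY_eq hρi, map_one, mul_one]
      have h4 : aeval (extA A B) (minpolyDiv ℚ ρ) ∈ Algebra.adjoin ℝ {extA A B} :=
        aeval_mem_adjoin_singleton ℝ (extA A B)
      have h5 : Algebra.adjoin ℝ {extA A B} ≤ Subalgebra.centralizer ℝ {extA A Z} := by
        apply Algebra.adjoin_le
        intro x hx
        rw [Set.mem_singleton_iff] at hx
        rw [SetLike.mem_coe, Subalgebra.mem_centralizer_iff]
        intro y hy
        rw [Set.mem_singleton_iff] at hy
        rw [hx, hy]
        exact h2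
      exact (Subalgebra.mem_centralizer_iff ℝ |>.1 (h5 h4) (extA A Z) rfl).symm
    exact LinearMap.congr_fun h3 v
  let bb : Fin 4 → Fin g → ℂ := ![π (A.per b0), π (A.per b1), π (A.per (P b0)), π (A.per (P b1))]
  let S : Set (Fin g → ℂ) := Set.range bb
  have hF : ∀ (a : Module.End ℚ A.H1), a ∈ Algebra.adjoin ℚ {B} → ∀ u : A.H1,
      ∀ N : Submodule ℝ (Fin g → ℂ), π (A.per u) ∈ N → π (A.per (a u)) ∈ N := by
    intro a ha u N hu
    rw [Algebra.adjoin_singleton_eq_range_aeval] at ha
    obtain ⟨p, rfl⟩ := ha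
    have hc : B * aeval B p = aeval B p * B := (comm_adj rfl (aeval_mem_adjoin_singleton ℚ B))
    change π (A.per (aeval B p u)) ∈ N
    rw [← AbVar.ext_apply, hπcomm _ hc, ext_aeval_eig (hπB _)]
    exact N.smul_mem _ hu
  have hper : ∀ w : A.H1, π (A.per w) ∈ Submodule.span ℝ S := by
    intro w
    obtain ⟨c0, hc0, c1, hc1, rfl⟩ := hb w
    obtain ⟨a0, ha0, a0', ha0', rfl⟩ := E_dec hc0
    obtain ⟨a1, ha1, a1', ha1', rfl⟩ := E_dec hc1
    have hPc : ∀ a ∈ Algebra.adjoin ℚ {P * P}, ∀ u, (P * a) u = a (P u) := by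
      intro a ha u
      rw [comm_adj rfl (F_le ha), Module.End.mul_apply]
    rw [LinearMap.add_apply, LinearMap.add_apply, hPc _ ha0', hPc _ ha1', map_add, map_add,
      map_add, map_add, map_add, map_add]
    refine Submodule.add_mem _ (Submodule.add_mem _ ?_ ?_) (Submodule.add_mem _ ?_ ?_)
    · exact hF _ ha0 _ _ (Submodule.subset_span ⟨0, rfl⟩)
    · exact hF _ ha0' _ _ (Submodule.subset_span ⟨2, rfl⟩)
    · exact hF _ ha1 _ _ (Submodule.subset_span ⟨1, rfl⟩)
    · exact hF _ ha1' _ _ (Submodule.subset_span ⟨3, rfl⟩)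
  have hall : ∀ v, π v ∈ Submodule.span ℝ S := by
    intro v
    rw [A.eq_sum v, map_sum]
    refine Submodule.sum_mem _ fun j _ => ?_
    rw [map_smul]
    exact Submodule.smul_mem _ _ (hper _)
  have hκ : aeval (ρ : ℝ) (derivative (minpoly ℚ (ρ : ℝ))) ≠ 0 :=
    (minpoly.irreducible hρi).separable.aeval_derivative_ne_zero (minpoly.aeval _ _)
  have hle : LinearMap.ker (A.ext B - ρ • LinearMap.id) ≤ Submodule.span ℝ S := by
    intro v hv
    rw [LinearMap.mem_ker, LinearMap.sub_apply, LinearMap.smul_apply, LinearMap.id_apply,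
      sub_eq_zero] at hv
    have h2 : ∀ q : ℝ[X], aeval (extA A B) q v = (q.eval ρ) • v := by
      intro q
      induction q using Polynomial.induction_on' with
      | add p q hp hq => rw [map_add, LinearMap.add_apply, hp, hq, eval_add, add_smul]
      | monomial n a =>
        rw [aeval_monomial, eval_monomial, Module.End.mul_apply, Module.algebraMap_end_apply]
        have h3 : (extA A B ^ n) v = (ρ ^ n) • v := by
          induction n with
          | zero => rw [pow_zero, pow_zero, one_smul, Module.End.one_apply]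
          | succ n ih =>
            rw [pow_succ', Module.End.mul_apply, ih, map_smul, extA_apply, hv, smul_smul,
              pow_succ]
        rw [h3, smul_smul]
    have h3 : π v = (aeval (ρ : ℝ) (derivative (minpoly ℚ (ρ : ℝ)))) • v := by
      change YY A ρ B 1 v = _
      rw [YY_eq hρi, map_one, mul_one, h2, eval_minpolyDiv_self]
    have h4 := hall v
    rw [h3] at h4
    have h5 := Submodule.smul_mem _ (aeval (ρ : ℝ) (derivative (minpoly ℚ (ρ : ℝ))))⁻¹ h4
    rwa [smul_smul, inv_mul_cancel₀ hκ, one_smul] at h5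
  refine (Submodule.finrank_mono hle).trans ?_
  exact (finrank_range_le_card bb).trans (by simp)

end Pool.Agent.W5h86.RK
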