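import Pool.Agent.W5h86.RK.Pl
import Pool.Agent.W5h86.LY.Fin2

set_option autoImplicit false

/-!
# The signs at the places
-/

open Module Polynomial

noncomputable section

namespace Pool.Agent.W5h86.RK

open Pool.Agent.Y102 Pool.Agent.W516.DR Pool.Agent.W516.KC Pool.Agent.W5h86.LZ
open Pool.Agent.W5h86.LY

/-- four orthogonal positive vectors in a space of dimension at most four -/
lemma bil_pos {W : Type} [AddCommGroup W] [Module ℝ W] [FiniteDimensional ℝ W]
    (S : W →ₗ[ℝ] W →ₗ[ℝ] ℝ) (N : Submodule ℝ W) (hN : finrank ℝ N ≤ 4) (v : Fin 4 → W)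
    (hv : ∀ i, v i ∈ N) (h0 : ∀ i j, i ≠ j → S (v i) (v j) = 0) (hp : ∀ i, 0 < S (v i) (v i)) :
    ∀ c ∈ N, 0 ≤ S c c := by
  have hsum : ∀ (c : Fin 4 → ℝ) (j : Fin 4), S (v j) (∑ i, c i • v i) = c j * S (v j) (v j) := by
    intro c j
    rw [map_sum, Finset.sum_eq_single j]
    · rw [map_smul, smul_eq_mul]
    · intro i _ hi
      rw [map_smul, h0 j i (Ne.symm hi), smul_zero]
    · intro h
      exact absurd (Finset.mem_univ _) h
  have hli : LinearIndependent ℝ v := by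
    rw [Fintype.linearIndependent_iff]
    intro c hc i
    have h1 := hsum c i
    rw [hc, map_zero] at h1
    exact (mul_eq_zero.1 h1.symm).resolve_right (hp i).ne'
  have hle : Submodule.span ℝ (Set.range v) ≤ N := by
    rw [Submodule.span_le]
    rintro _ ⟨i, rfl⟩
    exact hv i
  have heq : Submodule.span ℝ (Set.range v) = N := by
    apply Submodule.eq_of_le_of_finrank_le hle
    rw [finrank_span_eq_card hli, Fintype.card_fin]
    exact hN
  intro c hc
  rw [← heq, Submodule.mem_span_range_iff_exists_fun] at hc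
  obtain ⟨k, rfl⟩ := hc
  have h1 : S (∑ i, k i • v i) (∑ i, k i • v i) = ∑ i, k i * (k i * S (v i) (v i)) := by
    have h2 : ∀ x, S (∑ i, k i • v i) x = ∑ i, k i * S (v i) x := by
      intro x
      rw [map_sum, LinearMap.sum_apply]
      refine Finset.sum_congr rfl fun i _ => ?_
      rw [map_smul, LinearMap.smul_apply, smul_eq_mul]
    rw [h2]
    refine Finset.sum_congr rfl fun i _ => ?_
    rw [hsum]
  rw [h1]
  refine Finset.sum_nonneg fun i _ => ?_
  rw [← mul_assoc]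
  exact mul_nonneg (mul_self_nonneg _) (hp i).le

variable {g : ℕ} {A : AbVar g} {P : Module.End ℚ A.H1} {M : (Fin g → ℂ) →ₗ[ℂ] (Fin g → ℂ)}

/-- the place -/
abbrev Wp (A : AbVar g) (P : Module.End ℚ A.H1) (ρ : ℝ) : Submodule ℝ (Fin g → ℂ) :=
  LinearMap.ker (A.ext (P * P) - ρ • LinearMap.id)

lemma mem_Wp {ρ : ℝ} {v : Fin g → ℂ} : v ∈ Wp A P ρ ↔ A.ext (P * P) v = ρ • v := by
  rw [LinearMap.mem_ker, LinearMap.sub_apply, LinearMap.smul_apply, LinearMap.id_apply,
    sub_eq_zero]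

lemma st_Wp {ρ : ℝ} {Z : Module.End ℚ A.H1} (hZ : Z * P = P * Z) {v : Fin g → ℂ}
    (hv : v ∈ Wp A P ρ) : A.ext Z v ∈ Wp A P ρ := by
  rw [mem_Wp] at hv ⊢
  have h1 : (P * P) * Z = Z * (P * P) := by
    rw [mul_assoc, ← hZ, ← mul_assoc, ← hZ, mul_assoc]
  rw [ext_comm h1, hv, map_smul]

/-- **Definite places.** -/
lemma sign_def (hM : ∀ w, M (A.per w) = A.per (P w)) {ρ τ : ℝ} (hτ : τ ≠ 0)
    (hd : ∀ v ∈ Wp A P ρ, M v = τ • (Complex.I • v)) {Z : Module.End ℚ A.H1}
    (hZ : Z * P = P * Z) (hs : IsSkew A.om Z) {f : ℚ[X]} (hf : Z * Z = aeval (P * P) f)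
    {v : Fin g → ℂ} (hv : v ∈ Wp A P ρ) :
    A.E (A.ext Z v) (Complex.I • A.ext Z v) = -(aeval ρ f) * A.E v (Complex.I • v) := by
  have h1 := hd _ (st_Wp hZ hv)
  have h2 : A.ext Z (M v) = M (A.ext Z v) := by
    rw [← ext_eq hM, ← ext_eq hM]
    exact ext_comm hZ v
  have h3 : A.ext Z (A.ext Z v) = (aeval ρ f) • v := by
    have h4 := ext_aeval_eig (mem_Wp.1 hv) f
    rw [← hf, AbVar.ext_mul] at h4
    exact h4
  have h4 : A.E (A.ext Z v) (M (A.ext Z v)) = -(aeval ρ f) * A.E v (M v) := by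
    have h5 := ext_skew hs (A.ext Z v) (M v)
    rw [h3, map_smul, LinearMap.smul_apply, smul_eq_mul] at h5
    rw [← h2]
    linear_combination h5
  have e : ∀ (r : ℝ) (x y : Fin g → ℂ), A.E x (r • y) = r * A.E x y := fun r x y => by
    rw [map_smul, smul_eq_mul]
  rw [h1, hd v hv, e, e] at h4
  apply mul_left_cancel₀ hτ
  linear_combination h4

lemma sign_neg (hM : ∀ w, M (A.per w) = A.per (P w)) {ρ τ : ℝ} (hτ : τ ≠ 0)
    (hirr : Irreducible (minpoly ℚ (P * P))) (hρ : aeval ρ (minpoly ℚ (P * P)) = 0)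
    (hd : ∀ v ∈ Wp A P ρ, M v = τ • (Complex.I • v)) {Z : Module.End ℚ A.H1}
    (hZ : Z * P = P * Z) (hs : IsSkew A.om Z) (hZ0 : Z ≠ 0) {f : ℚ[X]}
    (hf : Z * Z = aeval (P * P) f) : aeval ρ f < 0 := by
  obtain ⟨v, hv, hZv⟩ : ∃ v ∈ Wp A P ρ, A.ext Z v ≠ 0 := by
    by_contra hcon
    push Not at hcon
    apply hZ0
    refine zero_of_place hirr hρ ?_ fun v hv => hcon v (mem_Wp.2 hv)
    rw [mul_assoc, ← hZ, ← mul_assoc, ← hZ, mul_assoc]
  have hv0 : v ≠ 0 := by
    rintro rfl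
    exact hZv (map_zero _)
  have h1 := sign_def hM hτ hd hZ hs hf hv
  have h2 := A.E_pos hZv
  have h3 := A.E_pos hv0
  by_contra hcon
  push Not at hcon
  have h4 : -(aeval ρ f) * A.E v (Complex.I • v) ≤ 0 := by
    rw [neg_mul]
    exact neg_nonpos.2 (mul_nonneg hcon h3.le)
  rw [← h1] at h4
  exact absurd h2 (not_lt.2 h4)

/-- **Indefinite places.** -/
lemma sign_indef (hM : ∀ w, M (A.per w) = A.per (P w)) (hPs : IsSkew A.om P) {ρ : ℝ}
    (hdim : finrank ℝ (Wp A P ρ) ≤ 4)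
    {x y : Module.End ℚ A.H1} (hx : x * P = P * x) (hy : y * P = P * y) (hxs : IsSkew A.om x)
    (hys : IsSkew A.om y) (hxy : x * y = -(y * x)) {f f' : ℚ[X]} (hf : x * x = aeval (P * P) f)
    (hf' : y * y = aeval (P * P) f') (h1 : aeval ρ f < 0) (h2 : aeval ρ f' < 0)
    {a c : Fin g → ℂ} (ha : a ∈ Wp A P ρ) (hc : c ∈ Wp A P ρ)
    (hsa : 0 < A.E a (M a)) : 0 ≤ A.E c (M c) := by
  let S : (Fin g → ℂ) →ₗ[ℝ] (Fin g → ℂ) →ₗ[ℝ] ℝ := A.E.compl₂ (M.restrictScalars ℝ)
  have hS : ∀ u v, S u v = A.E u (M v) := fun u v => rfl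
  have hMs := skew_M hM hPs
  have hsym : ∀ u v, S u v = S v u := by
    intro u v
    rw [hS, hS, A.E_anti, hMs, neg_neg]
  have hsk : ∀ Z : Module.End ℚ A.H1, Z * P = P * Z → IsSkew A.om Z → ∀ u v,
      S (A.ext Z u) v = -S u (A.ext Z v) := by
    intro Z hZ hZs u v
    rw [hS, hS, ext_skew hZs]
    congr 2
    rw [← ext_eq hM, ← ext_eq hM]
    exact ext_comm hZ v
  have hsx := hsk x hx hxs
  have hsy := hsk y hy hys
  have hxx : ∀ v ∈ Wp A P ρ, A.ext x (A.ext x v) = (aeval ρ f) • v := by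
    intro v hv
    have h4 := ext_aeval_eig (mem_Wp.1 hv) f
    rw [← hf, AbVar.ext_mul] at h4
    exact h4
  have hyy : ∀ v ∈ Wp A P ρ, A.ext y (A.ext y v) = (aeval ρ f') • v := by
    intro v hv
    have h4 := ext_aeval_eig (mem_Wp.1 hv) f'
    rw [← hf', AbVar.ext_mul] at h4
    exact h4
  have hanti : ∀ v, A.ext x (A.ext y v) = -A.ext y (A.ext x v) := by
    intro v
    have h3 : extA A (x * y) = extA A (-(y * x)) := by rw [hxy]
    rw [map_neg, map_mul, map_mul] at h3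
    exact LinearMap.congr_fun h3 v
  have hanti' : ∀ v, A.ext y (A.ext x v) = -A.ext x (A.ext y v) := by
    intro v
    rw [hanti, neg_neg]
  set X := A.ext x with hX
  set Y := A.ext y with hY
  have hXa : X a ∈ Wp A P ρ := st_Wp hx ha
  have hYa : Y a ∈ Wp A P ρ := st_Wp hy ha
  have hXYa : X (Y a) ∈ Wp A P ρ := st_Wp hx hYa
  have e0 : ∀ u, S (X u) u = 0 := by
    intro u
    have h3 := hsx u u
    rw [hsym u (X u)] at h3
    linarith
  have e0' : ∀ u, S (Y u) u = 0 := by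
    intro u
    have h3 := hsy u u
    rw [hsym u (Y u)] at h3
    linarith
  have e1 : S a (X a) = 0 := by rw [hsym]; exact e0 a
  have e2 : S a (Y a) = 0 := by rw [hsym]; exact e0' a
  have e3 : S a (X (Y a)) = 0 := by
    have h3 : S a (X (Y a)) = -S (X a) (Y a) := by rw [hsx, neg_neg]
    have h4 : S (X a) (Y a) = -S (Y (X a)) a := by rw [hsy, neg_neg]
    have h5 : S (Y (X a)) a = -S a (X (Y a)) := by
      rw [hanti', map_neg, LinearMap.neg_apply, hsym]
    linarith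
  have e4 : S (X a) (Y a) = 0 := by rw [hsx, e3, neg_zero]
  have e5 : S (X a) (X (Y a)) = 0 := by
    rw [hsx, hxx _ hYa, map_smul, e2, smul_zero, neg_zero]
  have e6 : S (Y a) (X (Y a)) = 0 := by
    rw [hsym]
    exact e0 (Y a)
  have d1 : S (X a) (X a) = -(aeval ρ f) * S a a := by
    rw [hsx, hxx _ ha, map_smul, smul_eq_mul]
    ring
  have d2 : S (Y a) (Y a) = -(aeval ρ f') * S a a := by
    rw [hsy, hyy _ ha, map_smul, smul_eq_mul]
    ring
  have d3 : S (X (Y a)) (X (Y a)) = (aeval ρ f) * (aeval ρ f') * S a a := by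
    rw [hsx, hxx _ hYa, map_smul, smul_eq_mul, d2]
    ring
  have hp0 : 0 < S a a := hsa
  have hp1 : 0 < S (X a) (X a) := by
    rw [d1]
    exact mul_pos (by linarith) hp0
  have hp2 : 0 < S (Y a) (Y a) := by
    rw [d2]
    exact mul_pos (by linarith) hp0
  have hp3 : 0 < S (X (Y a)) (X (Y a)) := by
    rw [d3]
    exact mul_pos (mul_pos_of_neg_of_neg h1 h2) hp0
  refine bil_pos S (Wp A P ρ) hdim ![a, X a, Y a, X (Y a)] ?_ ?_ ?_ c hc
  · intro i
    fin_cases i
    · exact ha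
    · exact hXa
    · exact hYa
    · exact hXYa
  · intro i j hij
    fin_cases i <;> fin_cases j
    · exact absurd rfl hij
    · exact e1
    · exact e2
    · exact e3
    · exact (hsym _ _).trans e1
    · exact absurd rfl hij
    · exact e4
    · exact e5
    · exact (hsym _ _).trans e2
    · exact (hsym _ _).trans e4
    · exact absurd rfl hij
    · exact e6
    · exact (hsym _ _).trans e3
    · exact (hsym _ _).trans e5
    · exact (hsym _ _).trans e6
    · exact absurd rfl hij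
  · intro i
    fin_cases i
    · exact hp0
    · exact hp1
    · exact hp2
    · exact hp3

end Pool.Agent.W5h86.RK
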