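import Mathlib

set_option autoImplicit false

/-!
# The trace of the endomorphisms which commute with a field acting with rank two
-/

open Module Polynomial

namespace Pool.Agent.W5h86.RK

/-- Cayley-Hamilton in rank two -/
lemma ch2 {K V : Type} [Field K] [AddCommGroup V] [Module K V] (h : finrank K V = 2)
    (f : V →ₗ[K] V) : ∃ d : K, ∀ v, f (f v) = LinearMap.trace K V f • f v - d • v := by
  classical
  have : Module.Finite K V := Module.finite_of_finrank_pos (by omega)
  let b : Basis (Fin 2) K V := Module.finBasisOfFinrankEq K V h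
  set M := LinearMap.toMatrix b b f with hM
  refine ⟨M.det, fun v => ?_⟩
  have h1 := Matrix.aeval_self_charpoly M
  rw [Matrix.charpoly_fin_two] at h1
  simp only [map_add, map_sub, map_mul, map_pow, aeval_X, aeval_C] at h1
  have h2 : LinearMap.trace K V f = M.trace := LinearMap.trace_eq_matrix_trace K b f
  rw [h2]
  have h3 : f * f = M.trace • f - M.det • 1 := by
    apply (LinearMap.toMatrix b b).injective
    rw [LinearMap.toMatrix_mul, map_sub, map_smul, map_smul, ← hM, LinearMap.toMatrix_one]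
    have h4 : M ^ 2 - algebraMap K (Matrix (Fin 2) (Fin 2) K) M.trace * M +
      algebraMap K (Matrix (Fin 2) (Fin 2) K) M.det = 0 := h1
    rw [Algebra.algebraMap_eq_smul_one, Algebra.algebraMap_eq_smul_one, smul_mul_assoc,
      one_mul] at h4
    rw [← sq, ← sub_eq_zero, ← h4]
    abel
  exact LinearMap.congr_fun h3 v

variable {V : Type} [AddCommGroup V] [Module ℚ V] [FiniteDimensional ℚ V]

/-- the algebra generated by an endomorphism whose nonzero polynomials are injective is a field -/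
lemma isField_adjoin [Nontrivial V] {P : Module.End ℚ V}
    (hP : ∀ Q ∈ Algebra.adjoin ℚ {P}, Q ≠ 0 → Function.Injective Q) :
    IsField (Algebra.adjoin ℚ {P}) := by
  have hcomm : ∀ x y : Algebra.adjoin ℚ {P}, x * y = y * x := by
    rintro ⟨x, hx⟩ ⟨y, hy⟩
    apply Subtype.ext
    change x * y = y * x
    rw [Algebra.adjoin_singleton_eq_range_aeval] at hx hy
    obtain ⟨p, rfl⟩ := hx
    obtain ⟨q, rfl⟩ := hy
    change aeval P p * aeval P q = aeval P q * aeval P p
    exact ((map_mul (aeval P) p q).symm.trans (congrArg (aeval P) (mul_comm p q))).trans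
      (map_mul (aeval P) q p)
  refine ⟨⟨0, 1, zero_ne_one⟩, hcomm, ?_⟩
  intro a ha
  have ha0 : (a : Module.End ℚ V) ≠ 0 := fun h => ha (Subtype.ext h)
  have h1 := hP a.1 a.2 ha0
  let L : Algebra.adjoin ℚ {P} →ₗ[ℚ] Algebra.adjoin ℚ {P} := LinearMap.mulLeft ℚ a
  have h2 : Function.Injective L := by
    rw [← LinearMap.ker_eq_bot, LinearMap.ker_eq_bot']
    intro x hx
    apply Subtype.ext
    refine LinearMap.ext fun v => ?_
    have h3 : (a * x : Algebra.adjoin ℚ {P}) = 0 := hx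
    have h4 := congrArg (fun y : Algebra.adjoin ℚ {P} => (y : Module.End ℚ V) v) h3
    apply h1
    change a.1 (x.1 v) = a.1 0
    rw [map_zero]
    exact h4
  obtain ⟨b, hb⟩ := (LinearMap.injective_iff_surjective.1 h2) 1
  exact ⟨b, hb⟩

/-- **The trace.** -/
theorem exists_trace [Nontrivial V] {P : Module.End ℚ V}
    (hP : ∀ Q ∈ Algebra.adjoin ℚ {P}, Q ≠ 0 → Function.Injective Q)
    (hr : 2 * finrank ℚ (Algebra.adjoin ℚ {P}) = finrank ℚ V) :
    ∃ t : Module.End ℚ V → Module.End ℚ V,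
      (∀ Z, Z * P = P * Z → t Z ∈ Algebra.adjoin ℚ {P}) ∧
      (∀ Z Z', Z * P = P * Z → Z' * P = P * Z' → t (Z + Z') = t Z + t Z') ∧
      (∀ (c : ℚ) Z, Z * P = P * Z → t (c • Z) = c • t Z) ∧
      (∀ Z Z', Z * P = P * Z → Z' * P = P * Z' → t (Z * Z') = t (Z' * Z)) ∧
      (∀ Z ∈ Algebra.adjoin ℚ {P}, t Z = Z + Z) ∧
      (∀ Z, Z * P = P * Z → Z * Z - t Z * Z ∈ Algebra.adjoin ℚ {P}) ∧
      (∀ Q ∈ Algebra.adjoin ℚ {P}, ∀ Z, Z * P = P * Z → t (Q * Z) = Q * t Z) ∧
      (∃ T, T * P = P * T ∧ T ∉ Algebra.adjoin ℚ {P}) ∧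
      ∃ b0 b1 : V, ∀ v, ∃ c0 ∈ Algebra.adjoin ℚ {P}, ∃ c1 ∈ Algebra.adjoin ℚ {P},
        v = c0 b0 + c1 b1 := by
  classical
  let _ := (isField_adjoin hP).toField
  have h2 : finrank (Algebra.adjoin ℚ {P}) V = 2 := by
    have h1 := Module.finrank_mul_finrank ℚ (Algebra.adjoin ℚ {P}) V
    have h3 : 0 < finrank ℚ (Algebra.adjoin ℚ {P}) := Module.finrank_pos
    rw [← hr, mul_comm 2] at h1
    exact Nat.eq_of_mul_eq_mul_left h3 h1
  have hcm : ∀ Z : Module.End ℚ V, Z * P = P * Z → ∀ Q ∈ Algebra.adjoin ℚ {P}, ∀ v,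
      Z (Q v) = Q (Z v) := by
    intro Z hZ Q hQ v
    have h3 : Z * Q = Q * Z := by
      induction hQ using Algebra.adjoin_induction with
      | mem x hx =>
        rw [Set.mem_singleton_iff] at hx
        rw [hx, hZ]
      | algebraMap r => exact (Algebra.commutes r Z).symm
      | add a b _ _ ha hb => rw [mul_add, add_mul, ha, hb]
      | mul a b _ _ ha hb => rw [← mul_assoc, ha, mul_assoc, hb, mul_assoc]
    exact LinearMap.congr_fun h3 v
  let lin : ∀ Z : Module.End ℚ V, Z * P = P * Z → (V →ₗ[Algebra.adjoin ℚ {P}] V) :=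
    fun Z hZ =>
      { toFun := Z
        map_add' := fun a b => map_add Z a b
        map_smul' := fun c v => hcm Z hZ c.1 c.2 v }
  let t : Module.End ℚ V → Module.End ℚ V := fun Z =>
    if hZ : Z * P = P * Z then
      ((LinearMap.trace (Algebra.adjoin ℚ {P}) V (lin Z hZ) : Algebra.adjoin ℚ {P}) :
        Module.End ℚ V) else 0
  have ht : ∀ Z (hZ : Z * P = P * Z), t Z =
      ((LinearMap.trace (Algebra.adjoin ℚ {P}) V (lin Z hZ) : Algebra.adjoin ℚ {P}) :
        Module.End ℚ V) := fun Z hZ => dif_pos hZ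
  have hfin : Module.Finite (Algebra.adjoin ℚ {P}) V := Module.finite_of_finrank_pos (by omega)
  let b : Basis (Fin 2) (Algebra.adjoin ℚ {P}) V :=
    Module.finBasisOfFinrankEq (Algebra.adjoin ℚ {P}) V h2
  refine ⟨t, ?_, ?_, ?_, ?_, ?_, ?_, ?_, ?_, b 0, b 1, ?_⟩
  · intro Z hZ
    rw [ht Z hZ]
    exact Subtype.property _
  · intro Z Z' hZ hZ'
    have hs : (Z + Z') * P = P * (Z + Z') := by rw [add_mul, mul_add, hZ, hZ']
    rw [ht _ hs, ht _ hZ, ht _ hZ']
    have h3 : lin (Z + Z') hs = lin Z hZ + lin Z' hZ' := rfl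
    rw [h3, map_add]
    rfl
  · intro c Z hZ
    have hs : (c • Z) * P = P * (c • Z) := by rw [smul_mul_assoc, mul_smul_comm, hZ]
    rw [ht _ hs, ht _ hZ]
    have h3 : lin (c • Z) hs = (algebraMap ℚ (Algebra.adjoin ℚ {P}) c) • lin Z hZ := by
      refine LinearMap.ext fun v => ?_
      rfl
    rw [h3, map_smul]
    change ((algebraMap ℚ (Algebra.adjoin ℚ {P}) c : Algebra.adjoin ℚ {P}) : Module.End ℚ V) *
      _ = _
    rw [Subalgebra.coe_algebraMap, ← Algebra.smul_def]
  · intro Z Z' hZ hZ'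
    have hs : (Z * Z') * P = P * (Z * Z') := by rw [mul_assoc, hZ', ← mul_assoc, hZ, mul_assoc]
    have hs' : (Z' * Z) * P = P * (Z' * Z) := by rw [mul_assoc, hZ, ← mul_assoc, hZ', mul_assoc]
    rw [ht _ hs, ht _ hs']
    have h3 : lin (Z * Z') hs = lin Z hZ * lin Z' hZ' := rfl
    have h4 : lin (Z' * Z) hs' = lin Z' hZ' * lin Z hZ := rfl
    rw [h3, h4, LinearMap.trace_mul_comm]
  · intro Z hZ
    have hs : Z * P = P * Z := by
      refine LinearMap.ext fun v => ?_
      exact (hcm P rfl Z hZ v).symm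
    rw [ht _ hs]
    have h3 : lin Z hs = (⟨Z, hZ⟩ : Algebra.adjoin ℚ {P}) • (1 : V →ₗ[Algebra.adjoin ℚ {P}] V) :=
      rfl
    rw [h3, map_smul, LinearMap.trace_one, h2]
    change Z * ((2 : Algebra.adjoin ℚ {P}) : Module.End ℚ V) = Z + Z
    have h4 : ((2 : Algebra.adjoin ℚ {P}) : Module.End ℚ V) = 1 + 1 := by
      have h5 : (2 : Algebra.adjoin ℚ {P}) = 1 + 1 := one_add_one_eq_two.symm
      rw [h5]
      rfl
    rw [h4, mul_add, mul_one]
  · intro Z hZ
    obtain ⟨d, hd⟩ := ch2 h2 (lin Z hZ)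
    have h3 : Z * Z - t Z * Z = -(d : Module.End ℚ V) := by
      refine LinearMap.ext fun v => ?_
      have h4 := hd v
      rw [ht Z hZ]
      have h5 : Z (Z v) = ((LinearMap.trace (Algebra.adjoin ℚ {P}) V (lin Z hZ) :
        Algebra.adjoin ℚ {P}) : Module.End ℚ V) (Z v) - (d : Module.End ℚ V) v := h4
      rw [LinearMap.sub_apply, Module.End.mul_apply, Module.End.mul_apply, h5,
        LinearMap.neg_apply]
      abel
    rw [h3]
    exact neg_mem d.2
  · intro Q hQ Z hZ
    have hPQ : Q * P = P * Q := by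
      refine LinearMap.ext fun v => ?_
      exact (hcm P rfl Q hQ v).symm
    have hs : (Q * Z) * P = P * (Q * Z) := by rw [mul_assoc, hZ, ← mul_assoc, hPQ, mul_assoc]
    rw [ht _ hs, ht _ hZ]
    have h3 : lin (Q * Z) hs = (⟨Q, hQ⟩ : Algebra.adjoin ℚ {P}) • lin Z hZ := rfl
    rw [h3, map_smul]
    rfl
  · let T' : V →ₗ[Algebra.adjoin ℚ {P}] V := b.constr ℚ ![b 0, 0]
    have hT0 : T' (b 0) = b 0 := by
      rw [Basis.constr_basis]
      rfl
    have hT1 : T' (b 1) = 0 := by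
      rw [Basis.constr_basis]
      rfl
    let T : Module.End ℚ V :=
      { toFun := T'
        map_add' := fun x y => map_add T' x y
        map_smul' := fun c v => T'.map_smul (algebraMap ℚ (Algebra.adjoin ℚ {P}) c) v }
    have hTP : T * P = P * T := by
      refine LinearMap.ext fun v => ?_
      exact T'.map_smul (⟨P, Algebra.self_mem_adjoin_singleton ℚ P⟩ : Algebra.adjoin ℚ {P}) v
    refine ⟨T, hTP, fun hT => ?_⟩
    have hb0 : b 0 ≠ 0 := b.ne_zero 0
    have hTn : T ≠ 0 := by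
      intro h0
      have h3 : T (b 0) = 0 := by rw [h0, LinearMap.zero_apply]
      exact hb0 (hT0.symm.trans h3)
    have h3 := hP T hT hTn
    have h4 : T (b 1) = T 0 := by
      rw [map_zero]
      exact hT1
    exact b.ne_zero 1 (h3 h4)
  · intro v
    have h3 := b.sum_repr v
    rw [Fin.sum_univ_two] at h3
    exact ⟨_, (b.repr v 0).2, _, (b.repr v 1).2, h3.symm⟩

end Pool.Agent.W5h86.RK
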